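import Pool.Agent.W2helper57.AV.Geom

set_option autoImplicit false

/-!
# Classification of the collinear triples
-/

namespace Pool.Agent.W2helper57.AV

/-- parameters: number `k` of indices, exponents of the numbers attached to the indices -/
structure Par where
  k : ℕ
  ex : Fin 3 → ℕ → ℕ
  E : ℕ
  ex_pos : ∀ τ i, i < k → 1 ≤ ex τ i
  ex_lt : ∀ τ i, i < k → ex τ i < E
  ex_inj : ∀ τ i τ' i', i < k → i' < k → ex τ i = ex τ' i' → τ = τ' ∧ i = i'

/-- names of points: frame points (indices `0` for `z` and `f` for `s_f`) and points on the vertical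
line of the pair `(i, j)`, of type `0` (bottom), `1` (value), `2` (top) -/
inductive Q : Type
  | fr (f : Fin 7)
  | ho (τ : Fin 3) (i j : ℕ)
  deriving DecidableEq

/-- valid names -/
def Q.Valid (P : Par) : Q → Prop
  | .fr _ => True
  | .ho _ i j => i ≤ j ∧ j < P.k

/-- the base -/
def Par.W (P : Par) : ℤ := 2 ^ (P.k + 7)

/-- first coordinates of the frame points -/
def fx (k : ℕ) : Fin 7 → ℤ := ![1, 2 ^ k + 5, 2, 0, 0, 0, 2]

/-- second coordinates of the frame points, relative to the height `T` -/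
def fd : Fin 7 → ℤ := ![0, 0, 2, 1, 0, -2, -1]

/-- offsets -/
def hh : Fin 3 → ℤ := ![0, 2, 4]

/-- first coordinate -/
def X (P : Par) : Q → ℤ
  | .fr f => fx P.k f
  | .ho _ i j => 2 ^ i + 2 ^ j + 1

/-- second coordinate -/
def Y (P : Par) : Q → ℤ
  | .fr f => P.W ^ P.E + fd f
  | .ho τ i j => P.W ^ P.ex τ i + P.W ^ P.ex τ j + hh τ * P.W ^ (P.E + 1)

/-- coefficients of the second coordinate in base `W` -/
def cf (P : Par) : Q → ℕ → ℤ
  | .fr f, e => (if e = P.E then 1 else 0) + (if e = 0 then fd f else 0)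
  | .ho τ i j, e => (if e = P.ex τ i then 1 else 0) + (if e = P.ex τ j then 1 else 0) +
      (if e = P.E + 1 then hh τ else 0)

/-- the point -/
def pt (P : Par) (q : Q) : ℤ × ℤ := (X P q, Y P q)

variable (P : Par)

theorem Y_eq_sum {q : Q} (hq : q.Valid P) :
    Y P q = ∑ e ∈ Finset.range (P.E + 2), cf P q e * P.W ^ e := by
  cases q with
  | fr f =>
    simp only [Y, cf, add_mul, ite_mul, one_mul, zero_mul, Finset.sum_add_distrib,
      Finset.sum_ite_eq', Finset.mem_range]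
    rw [if_pos (by omega), if_pos (by omega)]
    simp
  | ho τ i j =>
    obtain ⟨h1, h2⟩ := hq
    have e1 := P.ex_lt τ i (by omega)
    have e2 := P.ex_lt τ j h2
    simp only [Y, cf, add_mul, ite_mul, one_mul, zero_mul, Finset.sum_add_distrib,
      Finset.sum_ite_eq', Finset.mem_range]
    rw [if_pos (by omega), if_pos (by omega), if_pos (by omega)]

theorem pow_bound {i j k : ℕ} (hij : i ≤ j) (hj : j < k) : (2:ℤ) ^ i + 2 ^ j ≤ 2 ^ k := by
  have h1 : (2:ℤ) ^ i ≤ 2 ^ j := pow_le_pow_right₀ (by norm_num) hij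
  have h2 : (2:ℤ) ^ (j + 1) ≤ 2 ^ k := pow_le_pow_right₀ (by norm_num) hj
  rw [pow_succ] at h2
  linarith

theorem X_bd {q : Q} (hq : q.Valid P) : 0 ≤ X P q ∧ X P q ≤ 2 ^ P.k + 5 := by
  have hk : (1:ℤ) ≤ 2 ^ P.k := one_le_pow₀ (by norm_num)
  cases q with
  | fr f =>
    fin_cases f <;> refine ⟨?_, ?_⟩ <;> simp [X, fx] <;> linarith
  | ho τ i j =>
    obtain ⟨h1, h2⟩ := hq
    have h3 := pow_bound h1 h2
    have h4 : (0:ℤ) < 2 ^ i := by positivity
    have h5 : (0:ℤ) < 2 ^ j := by positivity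
    simp only [X]
    constructor <;> linarith

theorem cf_bd (q : Q) (e : ℕ) : -2 ≤ cf P q e ∧ cf P q e ≤ 6 := by
  cases q with
  | fr f =>
    have : -2 ≤ fd f ∧ fd f ≤ 2 := by fin_cases f <;> simp [fd]
    simp only [cf]
    split_ifs <;> constructor <;> linarith
  | ho τ i j =>
    have : 0 ≤ hh τ ∧ hh τ ≤ 4 := by fin_cases τ <;> simp [hh]
    simp only [cf]
    split_ifs <;> constructor <;> linarith

/-- collinearity in each layer -/
theorem layer {p q r : Q} (hp : p.Valid P) (hq : q.Valid P) (hr : r.Valid P)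
    (h : dt (pt P p) (pt P q) (pt P r) = 0) : ∀ e < P.E + 2,
    (X P q - X P p) * (cf P r e - cf P p e) = (X P r - X P p) * (cf P q e - cf P p e) := by
  intro e he
  have hk : (1:ℤ) ≤ 2 ^ P.k := one_le_pow₀ (by norm_num)
  have h1 : ∑ e ∈ Finset.range (P.E + 2), ((X P q - X P p) * (cf P r e - cf P p e) -
      (X P r - X P p) * (cf P q e - cf P p e)) * P.W ^ e = 0 := by
    have h2 : (X P q - X P p) * (Y P r - Y P p) - (X P r - X P p) * (Y P q - Y P p) = 0 := by
      rw [← h]; unfold dt pt; ring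
    rw [Y_eq_sum P hp, Y_eq_sum P hq, Y_eq_sum P hr] at h2
    rw [← h2, ← Finset.sum_sub_distrib, ← Finset.sum_sub_distrib, Finset.mul_sum, Finset.mul_sum,
      ← Finset.sum_sub_distrib]
    refine Finset.sum_congr rfl fun e _ => ?_
    ring
  have h3 := digits_zero (P.E + 2) _ (fun e => ?_) h1 e he
  · exact sub_eq_zero.1 h3
  · have a1 := X_bd P hp
    have a2 := X_bd P hq
    have a3 := X_bd P hr
    have b1 := cf_bd P p e
    have b2 := cf_bd P q e
    have b3 := cf_bd P r e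
    have c1 : |X P q - X P p| ≤ 2 ^ P.k + 5 := abs_le.2 ⟨by linarith, by linarith⟩
    have c2 : |X P r - X P p| ≤ 2 ^ P.k + 5 := abs_le.2 ⟨by linarith, by linarith⟩
    have c3 : |cf P r e - cf P p e| ≤ 8 := abs_le.2 ⟨by linarith, by linarith⟩
    have c4 : |cf P q e - cf P p e| ≤ 8 := abs_le.2 ⟨by linarith, by linarith⟩
    have d1 : |(X P q - X P p) * (cf P r e - cf P p e)| ≤ (2 ^ P.k + 5) * 8 := by
      rw [abs_mul]; exact mul_le_mul c1 c3 (abs_nonneg _) (by linarith)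
    have d2 : |(X P r - X P p) * (cf P q e - cf P p e)| ≤ (2 ^ P.k + 5) * 8 := by
      rw [abs_mul]; exact mul_le_mul c2 c4 (abs_nonneg _) (by linarith)
    have d3 := abs_sub ((X P q - X P p) * (cf P r e - cf P p e))
      ((X P r - X P p) * (cf P q e - cf P p e))
    have d4 : P.W = 128 * 2 ^ P.k := by unfold Par.W; rw [pow_add]; ring
    rw [d4]
    calc _ ≤ _ := d3
      _ ≤ (2 ^ P.k + 5) * 8 + (2 ^ P.k + 5) * 8 := by linarith
      _ < 128 * 2 ^ P.k := by linarith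

/-! ### Sizes of the coordinates -/

/-- `W ^ (E - 1)` -/
def Par.D (P : Par) : ℤ := P.W ^ (P.E - 1)

theorem W_eq : P.W = 128 * 2 ^ P.k := by unfold Par.W; rw [pow_add]; ring

theorem one_le_two_pow_k : (1:ℤ) ≤ 2 ^ P.k := one_le_pow₀ (by norm_num)

theorem W_ge : 128 ≤ P.W := by
  rw [W_eq]; linarith [one_le_two_pow_k P]

theorem D_pos : 1 ≤ P.D := one_le_pow₀ (by linarith [W_ge P])

theorem E_pos {i : ℕ} (hi : i < P.k) : 1 ≤ P.E := by
  have h1 := P.ex_pos 0 i hi
  have h2 := P.ex_lt 0 i hi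
  omega

theorem pow_E {i : ℕ} (hi : i < P.k) : P.W ^ P.E = P.W * P.D := by
  have := E_pos P hi
  unfold Par.D
  rw [← pow_succ']
  congr 1
  omega

theorem pow_ex {τ : Fin 3} {i : ℕ} (hi : i < P.k) :
    0 < P.W ^ P.ex τ i ∧ P.W ^ P.ex τ i ≤ P.D := by
  have hW := W_ge P
  refine ⟨by positivity, ?_⟩
  unfold Par.D
  refine pow_le_pow_right₀ (by linarith) ?_
  have h2 := P.ex_lt τ i hi
  omega

theorem Y_zero {i j : ℕ} (h : (Q.ho 0 i j).Valid P) : 0 < Y P (.ho 0 i j) ∧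
    Y P (.ho 0 i j) + 2 < P.W ^ P.E := by
  obtain ⟨h1, h2⟩ := h
  have a1 := pow_ex P (τ := 0) (i := i) (by omega)
  have a2 := pow_ex P (τ := 0) (i := j) h2
  have hW := W_ge P
  have hD := D_pos P
  have hE := pow_E P h2
  simp only [Y, hh, Matrix.cons_val_zero, zero_mul, add_zero]
  rw [hE]
  constructor
  · linarith
  · nlinarith

theorem Y_one {i j : ℕ} (h : (Q.ho 1 i j).Valid P) :
    2 * P.W ^ (P.E + 1) < Y P (.ho 1 i j) ∧ Y P (.ho 1 i j) ≤ 2 * P.W ^ (P.E + 1) + 2 * P.D := by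
  obtain ⟨h1, h2⟩ := h
  have a1 := pow_ex P (τ := 1) (i := i) (by omega)
  have a2 := pow_ex P (τ := 1) (i := j) h2
  simp only [Y, hh, Matrix.cons_val_one, Matrix.cons_val_zero]
  constructor <;> linarith

theorem Y_two {i j : ℕ} (h : (Q.ho 2 i j).Valid P) :
    4 * P.W ^ (P.E + 1) < Y P (.ho 2 i j) ∧ Y P (.ho 2 i j) ≤ 4 * P.W ^ (P.E + 1) + 2 * P.D := by
  obtain ⟨h1, h2⟩ := h
  have a1 := pow_ex P (τ := 2) (i := i) (by omega)
  have a2 := pow_ex P (τ := 2) (i := j) h2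
  simp only [Y, hh, Matrix.cons_val]
  constructor <;> linarith

theorem pow_E1 : P.W ^ (P.E + 1) = P.W * P.W ^ P.E := pow_succ' _ _

/-- order of the three points of a vertical line, and of the height `T` -/
theorem Y_order {i j : ℕ} (h1 : i ≤ j) (h2 : j < P.k) :
    Y P (.ho 0 i j) + 2 < P.W ^ P.E ∧ P.W ^ P.E + 2 < Y P (.ho 1 i j) ∧
      Y P (.ho 1 i j) < Y P (.ho 2 i j) := by
  have b0 := Y_zero P (i := i) (j := j) ⟨h1, h2⟩
  have b1 := Y_one P (i := i) (j := j) ⟨h1, h2⟩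
  have b2 := Y_two P (i := i) (j := j) ⟨h1, h2⟩
  have hW := W_ge P
  have hD := D_pos P
  have hE := pow_E P h2
  have hE1 := pow_E1 P
  have hB : 128 * P.D ≤ P.W ^ P.E := by rw [hE]; nlinarith
  have hB1 : 128 * P.W ^ P.E ≤ P.W ^ (P.E + 1) := by rw [hE1]; nlinarith
  refine ⟨b0.2, by linarith, by linarith⟩

theorem X_ho_bd {τ : Fin 3} {i j : ℕ} (h : (Q.ho τ i j).Valid P) :
    3 ≤ X P (.ho τ i j) ∧ X P (.ho τ i j) ≤ 2 ^ P.k + 1 := by
  obtain ⟨h1, h2⟩ := h
  have h3 := pow_bound h1 h2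
  have h4 : (1:ℤ) ≤ 2 ^ i := one_le_pow₀ (by norm_num)
  have h5 : (1:ℤ) ≤ 2 ^ j := one_le_pow₀ (by norm_num)
  simp only [X]
  constructor <;> linarith

theorem X_fr_ne {f : Fin 7} {τ : Fin 3} {i j : ℕ} (h : (Q.ho τ i j).Valid P) :
    X P (.fr f) ≠ X P (.ho τ i j) := by
  have h1 := X_ho_bd P h
  have hk := one_le_two_pow_k P
  intro he
  rw [← he] at h1
  fin_cases f <;> simp [X, fx] at h1

theorem X_ho_inj {τ τ' : Fin 3} {i j i' j' : ℕ} (h : (Q.ho τ i j).Valid P)
    (h' : (Q.ho τ' i' j').Valid P) (he : X P (.ho τ i j) = X P (.ho τ' i' j')) :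
    i = i' ∧ j = j' := by
  simp only [X] at he
  exact two_pow_pair h.1 h'.1 (by linarith)

theorem Y_mono {τ τ' : Fin 3} {i j : ℕ} (h1 : i ≤ j) (h2 : j < P.k) (h : τ < τ') :
    Y P (.ho τ i j) < Y P (.ho τ' i j) := by
  have := Y_order P h1 h2
  fin_cases τ <;> fin_cases τ' <;> simp at h ⊢ <;> linarith

theorem pt_inj {p q : Q} (hp : p.Valid P) (hq : q.Valid P) (h : pt P p = pt P q) : p = q := by
  have hX : X P p = X P q := congrArg Prod.fst h
  have hY : Y P p = Y P q := congrArg Prod.snd h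
  have hk := one_le_two_pow_k P
  cases p with
  | fr f =>
    cases q with
    | fr g =>
      congr 1
      simp only [X] at hX
      simp only [Y, add_right_inj] at hY
      fin_cases f <;> fin_cases g <;> simp [fx, fd] at hX hY ⊢ <;> linarith
    | ho τ i j => exact absurd hX (X_fr_ne P hq)
  | ho τ i j =>
    cases q with
    | fr g => exact absurd hX.symm (X_fr_ne P hp)
    | ho τ' i' j' =>
      obtain ⟨rfl, rfl⟩ := X_ho_inj P hp hq hX
      congr 1
      rcases lt_trichotomy τ τ' with h1 | h1 | h1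
      · exact absurd hY (Y_mono P hp.1 hp.2 h1).ne
      · exact h1
      · exact absurd hY (Y_mono P hp.1 hp.2 h1).ne'

end Pool.Agent.W2helper57.AV
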