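import Pool.Agent.W2helper57.AV.Class

set_option autoImplicit false

/-!
# Classification of the collinear triples, continued
-/

namespace Pool.Agent.W2helper57.AV

variable (P : Par)

theorem dt_swap12 (p q r : ℤ × ℤ) : dt q p r = - dt p q r := by unfold dt; ring
theorem dt_swap23 (p q r : ℤ × ℤ) : dt p r q = - dt p q r := by unfold dt; ring
theorem dt_swap13 (p q r : ℤ × ℤ) : dt r q p = - dt p q r := by unfold dt; ring
theorem dt_cyc (p q r : ℤ × ℤ) : dt q r p = dt p q r := by unfold dt; ring

/-- if two of three collinear points are on a vertical line, so is the third -/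
theorem same_X {p q r : Q} (hp : p.Valid P) (hq : q.Valid P)
    (h : dt (pt P p) (pt P q) (pt P r) = 0) (hpq : p ≠ q) (hX : X P p = X P q) :
    X P r = X P p := by
  have h2 : (X P q - X P p) * (Y P r - Y P p) - (X P r - X P p) * (Y P q - Y P p) = 0 := by
    rw [← h]; unfold dt pt; ring
  rw [← hX, sub_self, zero_mul, zero_sub, neg_eq_zero] at h2
  rcases mul_eq_zero.1 h2 with h3 | h3
  · linarith
  · exfalso
    exact hpq (pt_inj P hp hq (Prod.ext hX (by change Y P p = Y P q; linarith)))

theorem cf_fr_E (f : Fin 7) (hE : 1 ≤ P.E) : cf P (.fr f) P.E = 1 := by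
  simp only [cf, if_true]
  rw [if_neg (by omega)]
  simp

theorem cf_ho_E {τ : Fin 3} {i j : ℕ} (h : (Q.ho τ i j).Valid P) : cf P (.ho τ i j) P.E = 0 := by
  obtain ⟨h1, h2⟩ := h
  have e1 := P.ex_lt τ i (by omega)
  have e2 := P.ex_lt τ j h2
  simp only [cf]
  rw [if_neg (by omega), if_neg (by omega), if_neg (by omega)]
  rfl

/-- coefficient of a point at the exponent of an index -/
theorem cf_ex {τ τ' : Fin 3} {i j l : ℕ} (h : (Q.ho τ i j).Valid P) (hl : l < P.k) :
    cf P (.ho τ i j) (P.ex τ' l) =
      (if τ' = τ ∧ l = i then 1 else 0) + (if τ' = τ ∧ l = j then 1 else 0) := by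
  obtain ⟨h1, h2⟩ := h
  have e3 := P.ex_lt τ' l hl
  simp only [cf]
  rw [if_neg (show ¬ P.ex τ' l = P.E + 1 by omega), add_zero]
  congr 1
  · by_cases hc : τ' = τ ∧ l = i
    · obtain ⟨rfl, rfl⟩ := hc
      simp
    · rw [if_neg hc, if_neg]
      intro he
      exact hc (P.ex_inj _ _ _ _ hl (by omega) he)
  · by_cases hc : τ' = τ ∧ l = j
    · obtain ⟨rfl, rfl⟩ := hc
      simp
    · rw [if_neg hc, if_neg]
      intro he
      exact hc (P.ex_inj _ _ _ _ hl h2 he)

/-- three collinear frame points -/
theorem cls_fr {f g h : Fin 7} (hd : dt (pt P (.fr f)) (pt P (.fr g)) (pt P (.fr h)) = 0)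
    (h1 : X P (.fr f) < X P (.fr g)) (h2 : X P (.fr g) < X P (.fr h)) :
    (f = 4 ∧ g = 0 ∧ h = 1) ∨ (f = 5 ∧ g = 0 ∧ h = 2) ∨ (f = 3 ∧ g = 0 ∧ h = 6) := by
  have hk := one_le_two_pow_k P
  have h3 : (fx P.k g - fx P.k f) * (fd h - fd f) - (fx P.k h - fx P.k f) * (fd g - fd f) = 0 := by
    rw [← hd]; unfold dt pt; simp only [X, Y]; ring
  simp only [X] at h1 h2
  clear hd
  fin_cases f <;> fin_cases g <;> fin_cases h <;>
    simp [fx, fd] at h1 h2 h3 ⊢ <;> first | omega | linarith

/-- the three points with `X p < X q < X r` -/
theorem cls {p q r : Q} (hp : p.Valid P) (hq : q.Valid P) (hr : r.Valid P)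
    (h : dt (pt P p) (pt P q) (pt P r) = 0) (h1 : X P p < X P q) (h2 : X P q < X P r) :
    (∃ τ i j, i < j ∧ p = .ho τ i i ∧ q = .ho τ i j ∧ r = .ho τ j j) ∨
    (p = .fr 4 ∧ q = .fr 0 ∧ r = .fr 1) ∨ (p = .fr 5 ∧ q = .fr 0 ∧ r = .fr 2) ∨
    (p = .fr 3 ∧ q = .fr 0 ∧ r = .fr 6) := by
  have hl := layer P hp hq hr h
  -- frame or host
  by_cases hk : P.k = 0
  · -- no host points
    cases p with
    | ho τ i j => obtain ⟨_, h4⟩ := hp; omega
    | fr f =>
      cases q with
      | ho τ i j => obtain ⟨_, h4⟩ := hq; omega
      | fr g =>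
        cases r with
        | ho τ i j => obtain ⟨_, h4⟩ := hr; omega
        | fr h' =>
          right
          rcases cls_fr P h h1 h2 with ⟨rfl, rfl, rfl⟩ | ⟨rfl, rfl, rfl⟩ | ⟨rfl, rfl, rfl⟩ <;> simp
  have hE : 1 ≤ P.E := E_pos P (i := 0) (by omega)
  have hlE := hl P.E (by omega)
  cases p with
  | fr f =>
    cases q with
    | fr g =>
      cases r with
      | fr h' =>
        right
        rcases cls_fr P h h1 h2 with ⟨rfl, rfl, rfl⟩ | ⟨rfl, rfl, rfl⟩ | ⟨rfl, rfl, rfl⟩ <;> simp
      | ho τ i j =>
        exfalso
        rw [cf_fr_E P f hE, cf_fr_E P g hE, cf_ho_E P hr] at hlE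
        linarith
    | ho τ i j =>
      exfalso
      cases r with
      | fr h' =>
        rw [cf_fr_E P f hE, cf_fr_E P h' hE, cf_ho_E P hq] at hlE
        linarith
      | ho τ' i' j' =>
        rw [cf_fr_E P f hE, cf_ho_E P hr, cf_ho_E P hq] at hlE
        linarith
  | ho τ i j =>
    cases q with
    | fr g =>
      exfalso
      cases r with
      | fr h' =>
        rw [cf_ho_E P hp, cf_fr_E P h' hE, cf_fr_E P g hE] at hlE
        linarith
      | ho τ' i' j' =>
        rw [cf_ho_E P hp, cf_ho_E P hr, cf_fr_E P g hE] at hlE
        linarith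
    | ho τ' i' j' =>
      cases r with
      | fr h' =>
        exfalso
        rw [cf_ho_E P hp, cf_fr_E P h' hE, cf_ho_E P hq] at hlE
        linarith
      | ho τ'' i'' j'' =>
        left
        -- positivity at q from positivity at p or r
        have key : ∀ σ l, l < P.k →
            ((0 < cf P (.ho τ i j) (P.ex σ l) ∨ 0 < cf P (.ho τ'' i'' j'') (P.ex σ l)) ↔
              0 < cf P (.ho τ' i' j') (P.ex σ l)) := by
          intro σ l hl'
          have h3 := hl (P.ex σ l) (by have := P.ex_lt σ l hl'; omega)
          have a1 : 0 ≤ cf P (.ho τ i j) (P.ex σ l) := by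
            rw [cf_ex P hp hl']; split_ifs <;> norm_num
          have a2 : 0 ≤ cf P (.ho τ' i' j') (P.ex σ l) := by
            rw [cf_ex P hq hl']; split_ifs <;> norm_num
          have a3 : 0 ≤ cf P (.ho τ'' i'' j'') (P.ex σ l) := by
            rw [cf_ex P hr hl']; split_ifs <;> norm_num
          generalize cf P (.ho τ i j) (P.ex σ l) = c1 at *
          generalize cf P (.ho τ' i' j') (P.ex σ l) = c2 at *
          generalize cf P (.ho τ'' i'' j'') (P.ex σ l) = c3 at *
          generalize X P (.ho τ i j) = x1 at *
          generalize X P (.ho τ' i' j') = x2 at *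
          generalize X P (.ho τ'' i'' j'') = x3 at *
          -- (x2 - x1) c3 + (x3 - x2) c1 = (x3 - x1) c2
          have h4 : (x2 - x1) * c3 + (x3 - x2) * c1 = (x3 - x1) * c2 := by linear_combination h3
          constructor
          · rintro (h5 | h5)
            · by_contra h6
              have h7 : c2 = 0 := by omega
              rw [h7, mul_zero] at h4
              have h8 : 0 < (x3 - x2) * c1 := mul_pos (by linarith) h5
              have h9 : 0 ≤ (x2 - x1) * c3 := mul_nonneg (by linarith) a3
              linarith
            · by_contra h6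
              have h7 : c2 = 0 := by omega
              rw [h7, mul_zero] at h4
              have h8 : 0 ≤ (x3 - x2) * c1 := mul_nonneg (by linarith) a1
              have h9 : 0 < (x2 - x1) * c3 := mul_pos (by linarith) h5
              linarith
          · intro h5
            by_contra h6
            push Not at h6
            have h7 : c1 = 0 := by omega
            have h8 : c3 = 0 := by omega
            rw [h7, h8, mul_zero, mul_zero, add_zero] at h4
            have h9 : 0 < (x3 - x1) * c2 := mul_pos (by linarith) h5
            linarith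
        have pos_iff : ∀ {σ τ : Fin 3} {i j l : ℕ}, (Q.ho τ i j).Valid P → l < P.k →
            (0 < cf P (.ho τ i j) (P.ex σ l) ↔ σ = τ ∧ (l = i ∨ l = j)) := by
          intro σ τ i j l hv hl'
          rw [cf_ex P hv hl']
          by_cases c1 : σ = τ ∧ l = i
          · rw [if_pos c1]
            constructor
            · intro _; exact ⟨c1.1, Or.inl c1.2⟩
            · intro _; split_ifs <;> norm_num
          · rw [if_neg c1]
            by_cases c2 : σ = τ ∧ l = j
            · rw [if_pos c2]
              constructor
              · intro _; exact ⟨c2.1, Or.inr c2.2⟩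
              · intro _; norm_num
            · rw [if_neg c2]
              constructor
              · intro h; norm_num at h
              · rintro ⟨rfl, h | h⟩
                · exact absurd ⟨rfl, h⟩ c1
                · exact absurd ⟨rfl, h⟩ c2
        have vi := hp.1
        have vj := hp.2
        have vi' := hq.1
        have vj' := hq.2
        have vi'' := hr.1
        have vj'' := hr.2
        have t1 : τ = τ' ∧ (i = i' ∨ i = j') := (pos_iff hq (by omega)).1 ((key τ i (by omega)).1
          (Or.inl ((pos_iff hp (by omega)).2 ⟨rfl, Or.inl rfl⟩)))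
        have t2 : τ = τ' ∧ (j = i' ∨ j = j') := (pos_iff hq (by omega)).1 ((key τ j (by omega)).1
          (Or.inl ((pos_iff hp (by omega)).2 ⟨rfl, Or.inr rfl⟩)))
        have t3 : τ'' = τ' ∧ (i'' = i' ∨ i'' = j') := (pos_iff hq (by omega)).1
          ((key τ'' i'' (by omega)).1 (Or.inr ((pos_iff hr (by omega)).2 ⟨rfl, Or.inl rfl⟩)))
        have t4 : τ'' = τ' ∧ (j'' = i' ∨ j'' = j') := (pos_iff hq (by omega)).1
          ((key τ'' j'' (by omega)).1 (Or.inr ((pos_iff hr (by omega)).2 ⟨rfl, Or.inr rfl⟩)))
        obtain ⟨rfl, t1⟩ := t1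
        obtain ⟨rfl, t3⟩ := t3
        replace t2 := t2.2
        replace t4 := t4.2
        have mono : ∀ {a b c d : ℕ}, a ≤ c → b ≤ d → X P (.ho τ'' a b) ≤ X P (.ho τ'' c d) := by
          intro a b c d hac hbd
          simp only [X]
          have e1 : (2:ℤ) ^ a ≤ 2 ^ c := pow_le_pow_right₀ (by norm_num) hac
          have e2 : (2:ℤ) ^ b ≤ 2 ^ d := pow_le_pow_right₀ (by norm_num) hbd
          linarith
        refine ⟨τ'', i', j', ?_, ?_, rfl, ?_⟩
        · rcases Nat.lt_or_ge i' j' with h5 | h5
          · exact h5
          · exfalso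
            have h6 : i' = j' := by omega
            subst h6
            have : i = i' := by omega
            have : j = i' := by omega
            subst_vars
            exact lt_irrefl _ h1
        · have hi : i = i' := by
            rcases t1 with h5 | h5
            · exact h5
            · exfalso
              subst h5
              have : j = i := by omega
              subst this
              exact absurd h1 (not_lt.2 (mono vi' le_rfl))
          have hj : j = i' := by
            rcases t2 with h5 | h5
            · exact h5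
            · exfalso
              subst h5
              subst hi
              exact lt_irrefl _ h1
          rw [hi, hj]
        · have hj : j'' = j' := by
            rcases t4 with h5 | h5
            · exfalso
              subst h5
              have : i'' = j'' := by omega
              subst this
              exact absurd h2 (not_lt.2 (mono le_rfl vi'))
            · exact h5
          have hi : i'' = j' := by
            rcases t3 with h5 | h5
            · exfalso
              subst h5
              subst hj
              exact lt_irrefl _ h2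
            · exact h5
          rw [hi, hj]

end Pool.Agent.W2helper57.AV
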