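import Pool.Agent.W2helper57.AV.Mid

set_option autoImplicit false

/-!
# A consistent choice avoids all obstacles
-/

namespace Pool.Agent.W2helper57.AV

variable (P : Par)

/-- class of a frame point: its first coordinate -/
def cl : Fin 7 → Fin 4 := ![0, 1, 2, 3, 3, 3, 2]

theorem cl_eq {k : ℕ} {f g : Fin 7} (h : fx k f = fx k g) : cl f = cl g := by
  have hk : (1:ℤ) ≤ 2 ^ k := one_le_pow₀ (by norm_num)
  fin_cases f <;> fin_cases g <;> simp [fx, cl] at h ⊢ <;> linarith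

theorem cl_three : ∀ f g h : Fin 7, f ≠ g → g ≠ h → f ≠ h → cl f = cl g → cl g = cl h →
    f = 4 ∨ g = 4 ∨ h = 4 := by decide

theorem cl_four : ∀ f g h l : Fin 7, f ≠ g → f ≠ h → f ≠ l → g ≠ h → g ≠ l → h ≠ l →
    cl f = cl g → cl f = cl h → cl f = cl l → False := by decide

theorem three_four (f g h l : Fin 3) (h1 : f ≠ g) (h2 : f ≠ h) (h3 : f ≠ l) (h4 : g ≠ h)
    (h5 : g ≠ l) (h6 : h ≠ l) : False := by
  simp only [ne_eq, Fin.ext_iff] at h1 h2 h3 h4 h5 h6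
  omega

theorem mem3 {i j : ℕ} (σ : Fin 3) : Q.ho σ i j ∈ [Q.ho 0 i j, Q.ho 1 i j, Q.ho 2 i j] := by
  fin_cases σ <;> simp

/-- the collinear triples, unordered -/
theorem ucls {p q r : Q} (hp : p.Valid P) (hq : q.Valid P) (hr : r.Valid P)
    (hpq : p ≠ q) (hqr : q ≠ r) (hpr : p ≠ r) (h : dt (pt P p) (pt P q) (pt P r) = 0) :
    (∃ i j, p ∈ [Q.ho 0 i j, Q.ho 1 i j, Q.ho 2 i j] ∧ q ∈ [Q.ho 0 i j, Q.ho 1 i j, Q.ho 2 i j] ∧
      r ∈ [Q.ho 0 i j, Q.ho 1 i j, Q.ho 2 i j]) ∨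
    (∃ τ i j, i < j ∧ p ∈ [Q.ho τ i i, Q.ho τ i j, Q.ho τ j j] ∧
      q ∈ [Q.ho τ i i, Q.ho τ i j, Q.ho τ j j] ∧ r ∈ [Q.ho τ i i, Q.ho τ i j, Q.ho τ j j]) ∨
    (p = .fr 0 ∨ q = .fr 0 ∨ r = .fr 0 ∨ p = .fr 4 ∨ q = .fr 4 ∨ r = .fr 4) := by
  by_cases hX : X P p = X P q
  · have hX' := same_X P hp hq h hpq hX
    cases q with
    | fr g =>
      obtain ⟨f, rfl⟩ := eq_fr_of_X P hp hX
      obtain ⟨f', rfl⟩ := eq_fr_of_X P hr (hX'.trans hX)
      right; right
      rcases cl_three f g f' (by simpa using hpq) (by simpa using hqr) (by simpa using hpr)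
        (cl_eq hX) (cl_eq ((hX'.trans hX).symm)) with h1 | h1 | h1 <;> simp [h1]
    | ho τ i j =>
      obtain ⟨σ, rfl⟩ := eq_ho_of_X P hp hq hX
      obtain ⟨σ', rfl⟩ := eq_ho_of_X P hr hq (hX'.trans hX)
      left
      exact ⟨i, j, mem3 _, mem3 _, mem3 _⟩
  · have hX2 : X P q ≠ X P r := by
      intro he
      have h1 : dt (pt P q) (pt P r) (pt P p) = 0 := by rw [dt_cyc]; exact h
      have := same_X P hq hr h1 hqr he
      exact hX this
    have hX3 : X P p ≠ X P r := by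
      intro he
      have h1 : dt (pt P p) (pt P r) (pt P q) = 0 := by rw [dt_swap23, h, neg_zero]
      have := same_X P hp hr h1 hpr he
      exact hX this.symm
    right
    have hrot : dt (pt P q) (pt P r) (pt P p) = 0 := by rw [dt_cyc]; exact h
    have hrot2 : dt (pt P r) (pt P p) (pt P q) = 0 := by rw [dt_cyc, dt_cyc]; exact h
    have hs1 : dt (pt P q) (pt P p) (pt P r) = 0 := by rw [dt_swap12, h, neg_zero]
    have hs2 : dt (pt P p) (pt P r) (pt P q) = 0 := by rw [dt_swap23, h, neg_zero]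
    have hs3 : dt (pt P r) (pt P q) (pt P p) = 0 := by rw [dt_swap13, h, neg_zero]
    rcases lt_or_gt_of_ne hX with a | a <;> rcases lt_or_gt_of_ne hX2 with b | b <;>
      rcases lt_or_gt_of_ne hX3 with c | c
    · rcases cls P hp hq hr h a b with ⟨τ, i, j, hij, rfl, rfl, rfl⟩ | ⟨rfl, rfl, rfl⟩ |
        ⟨rfl, rfl, rfl⟩ | ⟨rfl, rfl, rfl⟩
      · left; exact ⟨τ, i, j, hij, by simp, by simp, by simp⟩
      all_goals simp
    · exfalso; linarith
    · rcases cls P hp hr hq hs2 c b with ⟨τ, i, j, hij, rfl, rfl, rfl⟩ | ⟨rfl, rfl, rfl⟩ |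
        ⟨rfl, rfl, rfl⟩ | ⟨rfl, rfl, rfl⟩
      · left; exact ⟨τ, i, j, hij, by simp, by simp, by simp⟩
      all_goals simp
    · rcases cls P hr hp hq hrot2 c a with ⟨τ, i, j, hij, rfl, rfl, rfl⟩ | ⟨rfl, rfl, rfl⟩ |
        ⟨rfl, rfl, rfl⟩ | ⟨rfl, rfl, rfl⟩
      · left; exact ⟨τ, i, j, hij, by simp, by simp, by simp⟩
      all_goals simp
    · rcases cls P hq hp hr hs1 a c with ⟨τ, i, j, hij, rfl, rfl, rfl⟩ | ⟨rfl, rfl, rfl⟩ |
        ⟨rfl, rfl, rfl⟩ | ⟨rfl, rfl, rfl⟩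
      · left; exact ⟨τ, i, j, hij, by simp, by simp, by simp⟩
      all_goals simp
    · rcases cls P hq hr hp hrot b c with ⟨τ, i, j, hij, rfl, rfl, rfl⟩ | ⟨rfl, rfl, rfl⟩ |
        ⟨rfl, rfl, rfl⟩ | ⟨rfl, rfl, rfl⟩
      · left; exact ⟨τ, i, j, hij, by simp, by simp, by simp⟩
      all_goals simp
    · exfalso; linarith
    · rcases cls P hr hq hp hs3 b a with ⟨τ, i, j, hij, rfl, rfl, rfl⟩ | ⟨rfl, rfl, rfl⟩ |
        ⟨rfl, rfl, rfl⟩ | ⟨rfl, rfl, rfl⟩
      · left; exact ⟨τ, i, j, hij, by simp, by simp, by simp⟩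
      all_goals simp

/-- the three points of one type on the lines of `i`, `(i, j)`, `j` are collinear -/
theorem line_col (τ : Fin 3) (i j : ℕ) :
    dt (pt P (.ho τ i i)) (pt P (.ho τ i j)) (pt P (.ho τ j j)) = 0 := by
  unfold dt pt X Y
  simp only
  ring

theorem line_col' {τ : Fin 3} {i j : ℕ} {p q r : Q}
    (hp : p ∈ [Q.ho τ i i, Q.ho τ i j, Q.ho τ j j]) (hq : q ∈ [Q.ho τ i i, Q.ho τ i j, Q.ho τ j j])
    (hr : r ∈ [Q.ho τ i i, Q.ho τ i j, Q.ho τ j j]) : dt (pt P p) (pt P q) (pt P r) = 0 := by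
  simp only [List.mem_cons, List.not_mem_nil, or_false] at hp hq hr
  rcases hp with rfl | rfl | rfl <;> rcases hq with rfl | rfl | rfl <;>
    rcases hr with rfl | rfl | rfl <;> simp only [dt, pt, X, Y] <;> ring

theorem dt_frame (p : ℤ × ℤ) : dt (pt P (.fr 0)) (pt P (.fr 1)) p =
    (2 ^ P.k + 4) * (p.2 - P.W ^ P.E) := by
  unfold dt pt X Y
  simp [fx, fd]
  ring

theorem above_iff {q : Q} : orient (up' P (.fr 0)) (up' P (.fr 1)) (up' P q) = -1 ↔
    P.W ^ P.E < Y P q := by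
  unfold up'
  rw [orient_up_neg, dt_frame]
  have hk := one_le_two_pow_k P
  change 0 < (2 ^ P.k + 4) * (Y P q - P.W ^ P.E) ↔ _
  rw [mul_pos_iff_of_pos_left (by linarith)]
  exact sub_pos

theorem below_iff {q : Q} : orient (up' P (.fr 0)) (up' P (.fr 1)) (up' P q) = 1 ↔
    Y P q < P.W ^ P.E := by
  unfold up'
  rw [orient_up_one, dt_frame]
  have hk := one_le_two_pow_k P
  change (2 ^ P.k + 4) * (Y P q - P.W ^ P.E) < 0 ↔ _
  constructor
  · intro h; by_contra h1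
    have : 0 ≤ (2 ^ P.k + 4) * (Y P q - P.W ^ P.E) := mul_nonneg (by linarith) (by linarith)
    linarith
  · intro h; exact mul_neg_of_pos_of_neg (by linarith) (by linarith)

/-- a line through two points of the same type `1` or `2` does not separate `z` and `s1` -/
theorem nosep {τ : Fin 3} {i j i' j' : ℕ} (hτ : τ ≠ 0) (h : (Q.ho τ i j).Valid P)
    (h' : (Q.ho τ i' j').Valid P) (hX : X P (.ho τ i j) ≠ X P (.ho τ i' j')) :
    0 < dt (pt P (.ho τ i j)) (pt P (.ho τ i' j')) (pt P (.fr 0)) *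
      dt (pt P (.ho τ i j)) (pt P (.ho τ i' j')) (pt P (.fr 1)) := by
  have hk := one_le_two_pow_k P
  have hW := W_ge P
  have hW' := W_eq P
  have hD := D_pos P
  have hE := pow_E P h.2
  have hE1 := pow_E1 P
  have b1 := X_ho_bd P h
  have b2 := X_ho_bd P h'
  have hB : 128 * P.D ≤ P.W ^ P.E := by rw [hE]; nlinarith
  have hB1 : 128 * P.W ^ P.E ≤ P.W ^ (P.E + 1) := by rw [hE1]; nlinarith
  have hB2 : P.W ^ P.E = 128 * (2 ^ P.k * P.D) := by rw [hE, hW']; ring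
  have hKD : P.D ≤ 2 ^ P.k * P.D := by nlinarith
  have key : P.W ^ (P.E + 1) < Y P (.ho τ i j) - P.W ^ P.E ∧
      |Y P (.ho τ i' j') - Y P (.ho τ i j)| ≤ 2 * P.D := by
    have a1 := pow_ex P (τ := τ) (i := i) (by have := h.1; have := h.2; omega)
    have a2 := pow_ex P (τ := τ) (i := j) h.2
    have a3 := pow_ex P (τ := τ) (i := i') (by have := h'.1; have := h'.2; omega)
    have a4 := pow_ex P (τ := τ) (i := j') h'.2
    have hh2 : 2 ≤ hh τ := by
      fin_cases τ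
      · exact absurd rfl hτ
      · simp [hh]
      · simp [hh]
    have hh3 : 2 * P.W ^ (P.E + 1) ≤ hh τ * P.W ^ (P.E + 1) :=
      mul_le_mul_of_nonneg_right hh2 (by positivity)
    constructor
    · simp only [Y]; linarith
    · rw [abs_le]; simp only [Y]; constructor <;> linarith
  obtain ⟨k1, k2⟩ := key
  have formula : ∀ x : ℤ, dt (pt P (.ho τ i j)) (pt P (.ho τ i' j')) (x, P.W ^ P.E) =
      (X P (.ho τ i j) - X P (.ho τ i' j')) * (Y P (.ho τ i j) - P.W ^ P.E) +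
        (X P (.ho τ i j) - x) * (Y P (.ho τ i' j') - Y P (.ho τ i j)) := by
    intro x; unfold dt pt; ring
  have e0 : pt P (.fr 0) = (1, P.W ^ P.E) := by unfold pt X Y; simp [fx, fd]
  have e1 : pt P (.fr 1) = (2 ^ P.k + 5, P.W ^ P.E) := by unfold pt X Y; simp [fx, fd]
  rw [e0, e1, formula, formula]
  generalize X P (.ho τ i j) = x1 at *
  generalize X P (.ho τ i' j') = x2 at *
  generalize Y P (.ho τ i j) = y1 at *
  generalize Y P (.ho τ i' j') = y2 at *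
  have small : ∀ x : ℤ, 1 ≤ x → x ≤ 2 ^ P.k + 5 → |(x1 - x) * (y2 - y1)| < P.W ^ P.E := by
    intro x h1 h2
    rw [abs_mul]
    have c1 : |x1 - x| ≤ 2 ^ P.k + 5 := abs_le.2 ⟨by linarith, by linarith⟩
    calc |x1 - x| * |y2 - y1| ≤ (2 ^ P.k + 5) * (2 * P.D) :=
          mul_le_mul c1 k2 (abs_nonneg _) (by linarith)
      _ = 2 * (2 ^ P.k * P.D) + 10 * P.D := by ring
      _ < P.W ^ P.E := by rw [hB2]; nlinarith
  have s1 := abs_lt.1 (small 1 (by linarith) (by linarith))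
  have s2 := abs_lt.1 (small (2 ^ P.k + 5) (by linarith) (by linarith))
  have hBpos : 0 < P.W ^ P.E := by positivity
  rcases lt_or_gt_of_ne hX with h1 | h1
  · have big : (x1 - x2) * (y1 - P.W ^ P.E) ≤ -(y1 - P.W ^ P.E) := by
      have : (x1 - x2) ≤ -1 := by linarith
      nlinarith
    exact mul_pos_of_neg_of_neg (by linarith) (by linarith)
  · have big : (y1 - P.W ^ P.E) ≤ (x1 - x2) * (y1 - P.W ^ P.E) := by
      have : 1 ≤ x1 - x2 := by linarith
      nlinarith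
    exact mul_pos (by linarith) (by linarith)

end Pool.Agent.W2helper57.AV
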