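import Pool.Agent.W2helper57.AV.Compl

set_option autoImplicit false

/-!
# A consistent choice avoids all obstacles, continued
-/

namespace Pool.Agent.W2helper57.AV

/-- pairs `i ≤ j` below `k` -/
def pairsF (k : ℕ) : Finset (ℕ × ℕ) :=
  (Finset.range k ×ˢ Finset.range k).filter (fun x => x.1 ≤ x.2)

theorem mem_pairsF {k : ℕ} {x : ℕ × ℕ} : x ∈ pairsF k ↔ x.1 ≤ x.2 ∧ x.2 < k := by
  unfold pairsF
  simp only [Finset.mem_filter, Finset.mem_product, Finset.mem_range]
  omega

variable (P : Par)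

/-- all valid names -/
def names : Finset Q :=
  Finset.univ.image Q.fr ∪ (Finset.univ ×ˢ pairsF P.k).image (fun x => Q.ho x.1 x.2.1 x.2.2)

theorem mem_names {q : Q} : q ∈ names P ↔ q.Valid P := by
  unfold names
  simp only [Finset.mem_union, Finset.mem_image, Finset.mem_univ, true_and, Finset.mem_product]
  cases q with
  | fr f =>
    simp [Q.Valid]
  | ho τ i j =>
    simp only [reduceCtorEq, exists_false, false_or, Q.ho.injEq, Q.Valid]
    constructor
    · rintro ⟨x, hx, rfl, rfl, rfl⟩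
      exact mem_pairsF.1 hx
    · intro h
      exact ⟨(τ, i, j), mem_pairsF.2 h, rfl, rfl, rfl⟩

theorem card_names : (names P).card = 7 + 3 * (pairsF P.k).card := by
  unfold names
  rw [Finset.card_union_of_disjoint, Finset.card_image_of_injective, Finset.card_image_of_injective,
    Finset.card_product]
  · simp
  · rintro ⟨a, b, c⟩ ⟨a', b', c'⟩ h
    simp only [Q.ho.injEq] at h
    simp [h.1, h.2.1, h.2.2]
  · intro a b h
    simpa using h
  · rw [Finset.disjoint_left]
    intro q hq hq'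
    simp only [Finset.mem_image, Finset.mem_univ, true_and] at hq hq'
    obtain ⟨f, rfl⟩ := hq
    obtain ⟨x, _, hx⟩ := hq'
    cases hx

open Classical in
/-- the configuration of all points with valid names -/
noncomputable def CS : Finset (ℝ × ℝ) := (names P).image (up' P)

theorem up'_inj {p q : Q} (hp : p.Valid P) (hq : q.Valid P) (h : up' P p = up' P q) : p = q :=
  pt_inj P hp hq (up_inj h)

theorem card_CS : (CS P).card = 7 + 3 * (pairsF P.k).card := by
  classical
  rw [← card_names]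
  unfold CS
  apply Finset.card_image_of_injOn
  intro p hp q hq h
  exact up'_inj P ((mem_names P).1 hp) ((mem_names P).1 hq) h

/-- names of the points of a tuple -/
theorem names_of {m : ℕ} {t : Fin m → ℝ × ℝ} (ht : Function.Injective t) (hm : ∀ i, t i ∈ CS P) :
    ∃ q : Fin m → Q, (∀ i, (q i).Valid P) ∧ (∀ i j, i ≠ j → q i ≠ q j) ∧
      t = fun i => up' P (q i) := by
  classical
  have h1 : ∀ i, ∃ q, q.Valid P ∧ up' P q = t i := by
    intro i
    have := hm i
    unfold CS at this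
    rw [Finset.mem_image] at this
    obtain ⟨q, hq, hq'⟩ := this
    exact ⟨q, (mem_names P).1 hq, hq'⟩
  choose q hq hq' using h1
  refine ⟨q, hq, fun i j hij he => hij (ht ?_), ?_⟩
  · rw [← hq' i, ← hq' j, he]
  · funext i
    exact (hq' i).symm

theorem strict_sort {t : Fin 4 → Q} (h : ∀ i j, i ≠ j → X P (t i) ≠ X P (t j)) :
    ∃ σ : Equiv.Perm (Fin 4), StrictMono (fun i => X P (t (σ i))) := by
  refine ⟨Tuple.sort (fun i => X P (t i)), ?_⟩
  have h1 := Tuple.monotone_sort (fun i => X P (t i))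
  refine h1.strictMono_of_injective ?_
  intro i j hij
  by_contra hne
  exact h _ _ (fun he => hne ((Tuple.sort (fun i => X P (t i))).injective he)) hij

theorem avoid1 (t : Fin 4 → ℝ × ℝ) (ht : Function.Injective t) (hm : ∀ i, t i ∈ CS P) :
    ¬ Φ1 (ori t) := by
  intro hΦ
  obtain ⟨q, hv, hn, rfl⟩ := names_of P ht hm
  have hd : ∀ a b c, dt (pt P (q a)) (pt P (q b)) (pt P (q c)) = 0 := fun a b c =>
    orient_up_zero.1 (hΦ a b c)
  by_cases hX : ∃ a b, a ≠ b ∧ X P (q a) = X P (q b)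
  · obtain ⟨a, b, hab, hX⟩ := hX
    have hall : ∀ c, X P (q c) = X P (q a) := by
      intro c
      exact same_X P (hv a) (hv b) (hd a b c) (hn a b hab) hX
    cases h0 : q a with
    | fr f =>
      rw [h0] at hall
      have : ∀ c, ∃ g, q c = .fr g := fun c => eq_fr_of_X P (hv c) (hall c)
      choose g hg using this
      have hgn : ∀ c d, c ≠ d → g c ≠ g d := by
        intro c d hcd he
        exact hn c d hcd (by rw [hg, hg, he])
      have hcl : ∀ c d, cl (g c) = cl (g d) := by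
        intro c d
        have e1 := hall c
        have e2 := hall d
        rw [hg] at e1 e2
        exact cl_eq (e1.trans e2.symm)
      exact cl_four (g 0) (g 1) (g 2) (g 3) (hgn _ _ (by decide)) (hgn _ _ (by decide))
        (hgn _ _ (by decide)) (hgn _ _ (by decide)) (hgn _ _ (by decide)) (hgn _ _ (by decide))
        (hcl _ _) (hcl _ _) (hcl _ _)
    | ho τ i j =>
      have hva := hv a
      rw [h0] at hall hva
      have : ∀ c, ∃ σ, q c = .ho σ i j := fun c => eq_ho_of_X P (hv c) hva (hall c)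
      choose g hg using this
      have hgn : ∀ c d, c ≠ d → g c ≠ g d := by
        intro c d hcd he
        exact hn c d hcd (by rw [hg, hg, he])
      exact three_four (g 0) (g 1) (g 2) (g 3) (hgn _ _ (by decide)) (hgn _ _ (by decide))
        (hgn _ _ (by decide)) (hgn _ _ (by decide)) (hgn _ _ (by decide)) (hgn _ _ (by decide))
  · push Not at hX
    obtain ⟨σ, hσ⟩ := strict_sort P hX
    have h01 : X P (q (σ 0)) < X P (q (σ 1)) := hσ (by decide)
    have h12 : X P (q (σ 1)) < X P (q (σ 2)) := hσ (by decide)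
    have h23 : X P (q (σ 2)) < X P (q (σ 3)) := hσ (by decide)
    have c1 := cls P (hv _) (hv _) (hv _) (hd (σ 0) (σ 1) (σ 2)) h01 h12
    have c2 := cls P (hv _) (hv _) (hv _) (hd (σ 1) (σ 2) (σ 3)) h12 h23
    have m1 : (∃ τ i j, i < j ∧ q (σ 1) = .ho τ i j) ∨ q (σ 1) = .fr 0 := by
      rcases c1 with ⟨τ, i, j, h1, _, h2, _⟩ | ⟨_, h2, _⟩ | ⟨_, h2, _⟩ | ⟨_, h2, _⟩
      · exact Or.inl ⟨τ, i, j, h1, h2⟩
      · exact Or.inr h2
      · exact Or.inr h2
      · exact Or.inr h2
    have m2 : (∃ τ i, q (σ 1) = .ho τ i i) ∨ q (σ 1) = .fr 4 ∨ q (σ 1) = .fr 5 ∨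
        q (σ 1) = .fr 3 := by
      rcases c2 with ⟨τ, i, j, _, h2, _, _⟩ | ⟨h2, _, _⟩ | ⟨h2, _, _⟩ | ⟨h2, _, _⟩
      · exact Or.inl ⟨τ, i, h2⟩
      · exact Or.inr (Or.inl h2)
      · exact Or.inr (Or.inr (Or.inl h2))
      · exact Or.inr (Or.inr (Or.inr h2))
    rcases m1 with ⟨τ, i, j, h1, h2⟩ | h2 <;>
      rcases m2 with ⟨τ', i', h3⟩ | h3 | h3 | h3 <;> rw [h2] at h3
    · simp only [Q.ho.injEq] at h3; omega
    all_goals simp at h3

theorem frame_of {m : ℕ} {q : Fin m → Q} (hv : ∀ i, (q i).Valid P)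
    (hn : ∀ i j, i ≠ j → q i ≠ q j) {a0 a1 a2 a3 a4 a5 a6 : Fin m}
    (hd : [a0, a1, a2, a3, a4, a5, a6].Nodup)
    (hF : FrameP (ori (fun i => up' P (q i))) a0 a1 a2 a3 a4 a5 a6) :
    q a0 = .fr 0 ∧ q a1 = .fr 1 := by
  refine frame_rec P (s2 := q a2) (s3 := q a3) (s4 := q a4) (s5 := q a5) (s6 := q a6) ?_ ?_ hF
  · intro x hx
    simp only [List.mem_cons, List.not_mem_nil, or_false] at hx
    rcases hx with rfl | rfl | rfl | rfl | rfl | rfl | rfl <;> exact hv _
  · have : ([a0, a1, a2, a3, a4, a5, a6].map q).Nodup :=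
      List.Nodup.map (fun i j h => by by_contra hc; exact hn i j hc h) hd
    exact this

theorem not_above_fr0 : ¬ P.W ^ P.E < Y P (.fr 0) := by simp [Y, fd]
theorem not_above_fr4 : ¬ P.W ^ P.E < Y P (.fr 4) := by simp [Y, fd]

theorem avoid2 (t : Fin 10 → ℝ × ℝ) (ht : Function.Injective t) (hm : ∀ i, t i ∈ CS P) :
    ¬ Φ2 (ori t) := by
  intro hΦ
  obtain ⟨q, hv, hn, rfl⟩ := names_of P ht hm
  obtain ⟨hF, h0, h1, h2, h3, h4, h5⟩ := hΦ
  obtain ⟨hz, hs⟩ := frame_of P hv hn (by decide) hF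
  simp only [ori] at h0 h1 h2 h3 h4 h5
  rw [hz, hs] at h1 h2 h3
  rw [hz] at h4 h5
  rw [hs] at h4
  have a1 := (above_iff P).1 h1
  have a2 := (above_iff P).1 h2
  have a3 := (above_iff P).1 h3
  have hd := orient_up_zero.1 h0
  rcases ucls P (hv 6) (hv 7) (hv 8) (hn _ _ (by decide)) (hn _ _ (by decide))
    (hn _ _ (by decide)) hd with ⟨i, j, b1, b2, b3⟩ | ⟨τ, i, j, hij, b1, b2, b3⟩ | h
  · -- a vertical line: one of the three points is the lowest one
    have hv6 := hv 6
    have key : ∀ x : Q, P.W ^ P.E < Y P x → x ∈ [Q.ho 0 i j, Q.ho 1 i j, Q.ho 2 i j] →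
        x.Valid P → x = .ho 1 i j ∨ x = .ho 2 i j := by
      intro x hx hm hvx
      simp only [List.mem_cons, List.not_mem_nil, or_false] at hm
      rcases hm with rfl | rfl | rfl
      · exfalso
        have := (Y_order P hvx.1 hvx.2).1
        linarith
      · exact Or.inl rfl
      · exact Or.inr rfl
    have n67 := hn 6 7 (by decide)
    have n78 := hn 7 8 (by decide)
    have n68 := hn 6 8 (by decide)
    rcases key _ a1 b1 (hv 6) with e1 | e1 <;> rcases key _ a2 b2 (hv 7) with e2 | e2 <;>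
      rcases key _ a3 b3 (hv 8) with e3 | e3 <;> simp [e1, e2, e3] at n67 n78 n68
  · -- a line through three points of the same type
    have type : ∀ x : Q, x ∈ [Q.ho τ i i, Q.ho τ i j, Q.ho τ j j] → ∃ a b, x = .ho τ a b := by
      intro x hx
      simp only [List.mem_cons, List.not_mem_nil, or_false] at hx
      rcases hx with rfl | rfl | rfl
      · exact ⟨_, _, rfl⟩
      · exact ⟨_, _, rfl⟩
      · exact ⟨_, _, rfl⟩
    obtain ⟨c, d, e1⟩ := type _ b1
    obtain ⟨c', d', e2⟩ := type _ b2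
    have v6 := hv 6
    have v7 := hv 7
    have n67 := hn 6 7 (by decide)
    rw [e1] at v6 a1 h4 h5 n67
    rw [e2] at v7 h4 h5 n67
    have hτ : τ ≠ 0 := by
      rintro rfl
      have := (Y_order P v6.1 v6.2).1
      linarith
    have hX : X P (.ho τ c d) ≠ X P (.ho τ c' d') := by
      intro he
      obtain ⟨rfl, rfl⟩ := X_ho_inj P v6 v7 he
      exact n67 rfl
    have hs := nosep P hτ v6 v7 hX
    unfold up' at h4 h5
    rw [orient_up, orient_up] at h4
    rw [orient_up] at h5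
    rcases mul_pos_iff.1 hs with ⟨p1, p2⟩ | ⟨p1, p2⟩
    · rw [sign_pos p1, sign_pos p2] at h4
      exact absurd h4 (by decide)
    · rw [sign_neg p1, sign_neg p2] at h4
      exact absurd h4 (by decide)
  · rcases h with h | h | h | h | h | h
    · rw [h] at a1; exact not_above_fr0 P a1
    · rw [h] at a2; exact not_above_fr0 P a2
    · rw [h] at a3; exact not_above_fr0 P a3
    · rw [h] at a1; exact not_above_fr4 P a1
    · rw [h] at a2; exact not_above_fr4 P a2
    · rw [h] at a3; exact not_above_fr4 P a3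

/-- the three points of a host line are recognised -/
theorem host_rec {a p r : Q} (va : a.Valid P) (vp : p.Valid P) (vr : r.Valid P)
    (hap : a ≠ p) (hpr : p ≠ r) (har : a ≠ r)
    (hH : HostP orient (up' P (.fr 0)) (up' P (.fr 1)) (up' P a) (up' P p) (up' P r)) :
    ∃ i j, a = .ho 0 i j ∧ p = .ho 1 i j ∧ i ≤ j ∧ j < P.k := by
  obtain ⟨h0, h1, h2, h3, h4, h5⟩ := hH
  have a1 := (below_iff P).1 h1
  have a2 := (above_iff P).1 h2
  have a3 := (above_iff P).1 h3
  rcases mid_of P va vp vr hap hpr har h0 h4 h5 with ⟨i, j, rfl, h | h⟩ |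
    ⟨τ, i, j, hij, rfl, h | h⟩ | ⟨rfl, _⟩ | ⟨rfl, _⟩
  · obtain ⟨rfl, rfl⟩ := h
    exact ⟨i, j, rfl, rfl, va.1, va.2⟩
  · obtain ⟨rfl, rfl⟩ := h
    exfalso
    have := (Y_order P vr.1 vr.2).1
    linarith
  · obtain ⟨rfl, rfl⟩ := h
    exfalso
    have o1 := Y_order P va.1 va.2
    have o2 := Y_order P vp.1 vp.2
    fin_cases τ
    · simp only [Fin.zero_eta] at *; linarith [o2.1]
    · simp only [Fin.mk_one] at *; linarith [o1.2.1]
    · simp only [Fin.reduceFinMk] at *; linarith [o1.2.1, o1.2.2]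
  · obtain ⟨rfl, rfl⟩ := h
    exfalso
    have o1 := Y_order P va.1 va.2
    have o2 := Y_order P vp.1 vp.2
    fin_cases τ
    · simp only [Fin.zero_eta] at *; linarith [o2.1]
    · simp only [Fin.mk_one] at *; linarith [o1.2.1]
    · simp only [Fin.reduceFinMk] at *; linarith [o1.2.1, o1.2.2]
  · exact absurd a2 (not_above_fr0 P)
  · exact absurd a2 (not_above_fr4 P)

theorem avoid3 (t : Fin 16 → ℝ × ℝ) (ht : Function.Injective t) (hm : ∀ i, t i ∈ CS P) :
    ¬ Φ3 (ori t) := by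
  intro hΦ
  obtain ⟨q, hv, hn, rfl⟩ := names_of P ht hm
  obtain ⟨hF, h1, h2, h3, h4, h5⟩ := hΦ
  obtain ⟨hz, hs⟩ := frame_of P hv hn (by decide) hF
  have g1 : HostP orient (up' P (q 3)) (up' P (q 15)) (up' P (q 6)) (up' P (q 7)) (up' P (q 8)) := h1
  have g2 : HostP orient (up' P (q 3)) (up' P (q 15)) (up' P (q 9)) (up' P (q 10))
    (up' P (q 11)) := h2
  have g3 : HostP orient (up' P (q 3)) (up' P (q 15)) (up' P (q 12)) (up' P (q 13))
    (up' P (q 14)) := h3
  rw [hz, hs] at g1 g2 g3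
  obtain ⟨i1, j1, e1, f1, v1⟩ := host_rec P (hv _) (hv _) (hv _) (hn _ _ (by decide))
    (hn _ _ (by decide)) (hn _ _ (by decide)) g1
  obtain ⟨i2, j2, e2, f2, v2⟩ := host_rec P (hv _) (hv _) (hv _) (hn _ _ (by decide))
    (hn _ _ (by decide)) (hn _ _ (by decide)) g2
  obtain ⟨i3, j3, e3, f3, v3⟩ := host_rec P (hv _) (hv _) (hv _) (hn _ _ (by decide))
    (hn _ _ (by decide)) (hn _ _ (by decide)) g3
  have hd := orient_up_zero.1 h4
  refine h5 (orient_up_zero.2 ?_)
  have n1 := hn 6 9 (by decide)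
  have n2 := hn 9 12 (by decide)
  have n3 := hn 6 12 (by decide)
  rw [f1, f2, f3]
  rw [e1, e2, e3] at hd
  rw [e1, e2] at n1
  rw [e2, e3] at n2
  rw [e1, e3] at n3
  rcases ucls P (p := .ho 0 i1 j1) (q := .ho 0 i2 j2) (r := .ho 0 i3 j3) v1 v2 v3 n1 n2 n3 hd with
    ⟨i, j, b1, b2, b3⟩ | ⟨τ, i, j, hij, b1, b2, b3⟩ | h
  · exfalso
    simp only [List.mem_cons, List.not_mem_nil, or_false, Q.ho.injEq] at b1 b2
    apply n1
    rcases b1 with ⟨_, rfl, rfl⟩ | ⟨h, _⟩ | ⟨h, _⟩
    · rcases b2 with ⟨_, rfl, rfl⟩ | ⟨h, _⟩ | ⟨h, _⟩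
      · rfl
      · exact absurd h (by decide)
      · exact absurd h (by decide)
    · exact absurd h (by decide)
    · exact absurd h (by decide)
  · have conv : ∀ {a b : ℕ}, Q.ho 0 a b ∈ [Q.ho τ i i, Q.ho τ i j, Q.ho τ j j] →
        Q.ho 1 a b ∈ [Q.ho 1 i i, Q.ho 1 i j, Q.ho 1 j j] := by
      intro a b hab
      simp only [List.mem_cons, List.not_mem_nil, or_false, Q.ho.injEq, true_and] at hab ⊢
      rcases hab with h | h | h
      · exact Or.inl h.2
      · exact Or.inr (Or.inl h.2)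
      · exact Or.inr (Or.inr h.2)
    exact line_col' P (conv b1) (conv b2) (conv b3)
  · simp at h

/-- **Completeness**: a consistent choice avoids all obstacles. -/
theorem CS_avoids : (∀ t : Fin 4 → ℝ × ℝ, Function.Injective t → (∀ i, t i ∈ CS P) → ¬ Φ1 (ori t)) ∧
      (∀ t : Fin 10 → ℝ × ℝ, Function.Injective t → (∀ i, t i ∈ CS P) → ¬ Φ2 (ori t)) ∧
      (∀ t : Fin 16 → ℝ × ℝ, Function.Injective t → (∀ i, t i ∈ CS P) → ¬ Φ3 (ori t)) :=
  ⟨avoid1 P, avoid2 P, avoid3 P⟩

end Pool.Agent.W2helper57.AV
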