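import Mathlib

set_option autoImplicit false

/-!
# Obstacle-avoiding subconfigurations of planar point sets: definitions
-/

namespace Pool.Agent.W2helper57.AV

/-- The orientation of three points of the plane: minus the sign of
`x₁ y₂ - x₁ y₃ + x₂ y₃ - x₂ y₁ + x₃ y₁ - x₃ y₂`. -/
noncomputable def orient (p q r : ℝ × ℝ) : SignType :=
  -SignType.sign (p.1 * q.2 - p.1 * r.2 + q.1 * r.2 - q.1 * p.2 + r.1 * p.2 - r.1 * q.2)

/-- `T` is a subconfiguration of `S`: there is an instance of `T` in `S`, that is, an injective map
from `T` to `S` which preserves all orientations. -/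
def Subconfig (T S : Finset (ℝ × ℝ)) : Prop :=
  ∃ φ : T → S, Function.Injective φ ∧
    ∀ a b c : T, orient (φ a : ℝ × ℝ) (φ b) (φ c) = orient (a : ℝ × ℝ) b c

/-- The configuration `S` avoids all obstacles in `𝒞`. -/
def AvoidsAll (𝒞 : Finset (Finset (ℝ × ℝ))) (S : Finset (ℝ × ℝ)) : Prop :=
  ∀ C ∈ 𝒞, ¬ Subconfig C S

open Classical in
/-- The largest number of points of a subset of `S` which avoids all obstacles in `𝒞`. -/
noncomputable def AVOIDS (𝒞 : Finset (Finset (ℝ × ℝ))) (S : Finset (ℝ × ℝ)) : ℕ :=
  (S.powerset.filter (AvoidsAll 𝒞)).sup Finset.card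

open Classical in
/-- The set of the points in a list. -/
noncomputable def ptSet (l : List (ℝ × ℝ)) : Finset (ℝ × ℝ) := l.toFinset

/-- The configuration given by a list of points with integer coordinates. -/
noncomputable def conf (l : List (ℤ × ℤ)) : Finset (ℝ × ℝ) :=
  ptSet (l.map fun p => ((p.1 : ℝ), (p.2 : ℝ)))

/-- The table of the orientations (as integers `-1`, `0`, `1`) of all triples of points in a
list `l`: its entry at position `(i, j, m)` is the orientation of the points `l[i]`, `l[j]` and
`l[m]`. -/
noncomputable def orientTable (l : List (ℝ × ℝ)) : List (List (List ℤ)) :=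
  l.map fun p => l.map fun q => l.map fun r => ((orient p q r : SignType) : ℤ)

end Pool.Agent.W2helper57.AV
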