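import Pool.Agent.W2helper57.AV.Obst

set_option autoImplicit false

/-!
# The points of the reduction and their collinearities
-/

namespace Pool.Agent.W2helper57.AV

/-- twice the signed area of a triangle with integer vertices -/
def dt (p q r : ℤ × ℤ) : ℤ :=
  p.1 * q.2 - p.1 * r.2 + q.1 * r.2 - q.1 * p.2 + r.1 * p.2 - r.1 * q.2

/-- an integer point as a point of the plane -/
def up (p : ℤ × ℤ) : ℝ × ℝ := ((p.1 : ℝ), (p.2 : ℝ))

theorem up_inj : Function.Injective up := by
  intro p q h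
  unfold up at h
  rw [Prod.mk.injEq] at h
  exact Prod.ext (by exact_mod_cast h.1) (by exact_mod_cast h.2)

theorem orient_up (p q r : ℤ × ℤ) : orient (up p) (up q) (up r) = -SignType.sign (dt p q r) := by
  unfold orient up dt
  congr 1
  have h : (p.1 : ℝ) * (q.2 : ℝ) - (p.1 : ℝ) * r.2 + q.1 * r.2 - q.1 * p.2 + r.1 * p.2 - r.1 * q.2 =
      ((p.1 * q.2 - p.1 * r.2 + q.1 * r.2 - q.1 * p.2 + r.1 * p.2 - r.1 * q.2 : ℤ) : ℝ) := by
    push_cast; ring
  simp only
  rw [h]
  generalize (p.1 * q.2 - p.1 * r.2 + q.1 * r.2 - q.1 * p.2 + r.1 * p.2 - r.1 * q.2 : ℤ) = n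
  rcases lt_trichotomy n 0 with h1 | h1 | h1
  · rw [sign_neg h1, sign_neg (by exact_mod_cast h1)]
  · rw [h1]; simp
  · rw [sign_pos h1, sign_pos (by exact_mod_cast h1)]

theorem orient_up_zero {p q r : ℤ × ℤ} : orient (up p) (up q) (up r) = 0 ↔ dt p q r = 0 := by
  rw [orient_up]
  rcases lt_trichotomy (dt p q r) 0 with h | h | h
  · rw [sign_neg h]; simp [h.ne]
  · rw [h]; simp
  · rw [sign_pos h]; simp [h.ne']

theorem orient_up_one {p q r : ℤ × ℤ} : orient (up p) (up q) (up r) = 1 ↔ dt p q r < 0 := by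
  rw [orient_up]
  rcases lt_trichotomy (dt p q r) 0 with h | h | h
  · rw [sign_neg h]; simp [h]
  · rw [h]; simp
  · rw [sign_pos h]; simp [h.le]

theorem orient_up_neg {p q r : ℤ × ℤ} : orient (up p) (up q) (up r) = -1 ↔ 0 < dt p q r := by
  rw [orient_up]
  rcases lt_trichotomy (dt p q r) 0 with h | h | h
  · rw [sign_neg h]; simp [h.le]
  · rw [h]; simp
  · rw [sign_pos h]; simp [h]

/-- betweenness from orientations -/
theorem btw_of {w p q r : ℤ × ℤ} (h0 : dt p q r = 0)
    (h1 : orient (up w) (up p) (up q) = orient (up w) (up q) (up r))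
    (h2 : orient (up w) (up p) (up q) ≠ 0) :
    0 ≤ (q.1 - p.1) * (r.1 - q.1) ∧ 0 ≤ (q.2 - p.2) * (r.2 - q.2) := by
  have hA : dt w p q * (r.1 - q.1) = dt w q r * (q.1 - p.1) - dt p q r * (q.1 - w.1) := by
    unfold dt; ring
  have hB : dt w p q * (r.2 - q.2) = dt w q r * (q.2 - p.2) - dt p q r * (q.2 - w.2) := by
    unfold dt; ring
  rw [h0, zero_mul, sub_zero] at hA hB
  have hs : 0 < dt w p q * dt w q r := by
    rcases lt_trichotomy (dt w p q) 0 with h | h | h
    · have h3 := orient_up_one.2 h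
      rw [h1] at h3
      exact mul_pos_of_neg_of_neg h (orient_up_one.1 h3)
    · exact absurd (orient_up_zero.2 h) h2
    · have h3 := orient_up_neg.2 h
      rw [h1] at h3
      exact mul_pos h (orient_up_neg.1 h3)
  generalize dt w p q = A at *
  generalize dt w q r = B at *
  have hA0 : A ≠ 0 := by rintro rfl; simp at hs
  have hA2 : 0 < A * A := mul_self_pos.2 hA0
  constructor
  · have e1 : A * A * ((q.1 - p.1) * (r.1 - q.1)) = A * B * ((q.1 - p.1) * (q.1 - p.1)) := by
      linear_combination A * (q.1 - p.1) * hA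
    have e2 : 0 ≤ A * B * ((q.1 - p.1) * (q.1 - p.1)) := mul_nonneg hs.le (mul_self_nonneg _)
    rw [← e1] at e2
    exact nonneg_of_mul_nonneg_right e2 hA2
  · have e1 : A * A * ((q.2 - p.2) * (r.2 - q.2)) = A * B * ((q.2 - p.2) * (q.2 - p.2)) := by
      linear_combination A * (q.2 - p.2) * hB
    have e2 : 0 ≤ A * B * ((q.2 - p.2) * (q.2 - p.2)) := mul_nonneg hs.le (mul_self_nonneg _)
    rw [← e1] at e2
    exact nonneg_of_mul_nonneg_right e2 hA2

/-- Uniqueness of representations with small coefficients. -/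
theorem digits_zero {W : ℤ} : ∀ (N : ℕ) (c : ℕ → ℤ), (∀ e, |c e| < W) →
    ∑ e ∈ Finset.range N, c e * W ^ e = 0 → ∀ e < N, c e = 0 := by
  intro N
  induction N with
  | zero => intro c _ _ e he; omega
  | succ N ih =>
    intro c hc hs
    rw [Finset.sum_range_succ'] at hs
    have h1 : ∑ e ∈ Finset.range N, c (e + 1) * W ^ (e + 1) =
        W * ∑ e ∈ Finset.range N, c (e + 1) * W ^ e := by
      rw [Finset.mul_sum]
      refine Finset.sum_congr rfl fun e _ => ?_
      ring
    rw [h1] at hs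
    have hW : 0 < W := (abs_nonneg _).trans_lt (hc 0)
    have h2 : W ∣ c 0 := by
      refine ⟨-∑ e ∈ Finset.range N, c (e + 1) * W ^ e, ?_⟩
      linear_combination hs
    have h3 : c 0 = 0 := Int.eq_zero_of_abs_lt_dvd h2 (hc 0)
    rw [h3, zero_mul, add_zero] at hs
    have h4 : ∑ e ∈ Finset.range N, c (e + 1) * W ^ e = 0 := by
      rcases mul_eq_zero.1 hs with h | h
      · exact absurd h hW.ne'
      · exact h
    intro e he
    cases e with
    | zero => exact h3
    | succ e => exact ih (fun e => c (e + 1)) (fun e => hc _) h4 e (by omega)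

theorem two_pow_pair {i j i' j' : ℕ} (h : i ≤ j) (h' : i' ≤ j')
    (he : (2:ℤ) ^ i + 2 ^ j = 2 ^ i' + 2 ^ j') : i = i' ∧ j = j' := by
  have key : ∀ {i j i' j' : ℕ}, i ≤ j → i' ≤ j' → j < j' → (2:ℤ) ^ i + 2 ^ j < 2 ^ i' + 2 ^ j' := by
    intro i j i' j' h h' hj
    have h1 : (2:ℤ) ^ i ≤ 2 ^ j := pow_le_pow_right₀ (by norm_num) h
    have h2 : (2:ℤ) ^ (j + 1) ≤ 2 ^ j' := pow_le_pow_right₀ (by norm_num) hj
    have h3 : (0:ℤ) < 2 ^ i' := by positivity
    rw [pow_succ] at h2
    linarith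
  have hj : j = j' := by
    rcases lt_trichotomy j j' with h1 | h1 | h1
    · exact absurd he (key h h' h1).ne
    · exact h1
    · exact absurd he (key h' h h1).ne'
  subst hj
  have h1 : (2:ℤ) ^ i = 2 ^ i' := by linarith
  have h2 : (2:ℕ) ^ i = 2 ^ i' := by exact_mod_cast h1
  exact ⟨Nat.pow_right_injective (le_refl 2) h2, rfl⟩

end Pool.Agent.W2helper57.AV
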