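import Pool.Agent.W2helper57.AV.Sound2
import Pool.Agent.H633R2.Fpt
import Pool.Agent.H671R2.PolyAuto
import Pool.Agent.H687R2.IntPoly

set_option autoImplicit false

/-!
# The constructed instances and their computation in polynomial time
-/

namespace Pool.Agent.NPC.W2h57

open Pool.Agent.NPC Pool.Agent.H633R2 Pool.Agent.W2helper57.AV

/-- an instance of Clique: matrix and size -/
abbrev Src : Type := List (List Bool) × ℕ

/-- number of vertices -/
def nS (z : Src) : ℕ := z.1.length

/-- the smaller one of `k` and the number of vertices -/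
def kS (z : Src) : ℕ := min z.2 z.1.length

/-- adjacency in the source graph -/
def ed (A : List (List Bool)) (u v : ℕ) : Bool := !(decide (u = v)) && (entry A u v || entry A v u)

/-- powers of the base, for exponents up to `E + 1` -/
def pwr (n k e : ℕ) : ℤ := 2 ^ ((k + 7) * min e (EE n k + 1))

/-- powers of two, for exponents up to `k` -/
def p2 (k i : ℕ) : ℤ := 2 ^ (min i k)

def apt (n k i j : ℕ) : ℤ × ℤ := (p2 k i + p2 k j + 1, pwr n k (exA i) + pwr n k (exA j))
def bpt (n k i j : ℕ) : ℤ × ℤ := (p2 k i + p2 k j + 1,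
  pwr n k (exB n k i) + pwr n k (exB n k j) + 4 * pwr n k (EE n k + 1))
def vpt (n k i j u v : ℕ) : ℤ × ℤ := (p2 k i + p2 k j + 1,
  pwr n k (exV n k i u) + pwr n k (exV n k j v) + 2 * pwr n k (EE n k + 1))

/-- the choices on a line -/
def alB (A : List (List Bool)) (i j u v : ℕ) : Bool := if i = j then decide (u = v) else ed A u v

/-- the points on a line -/
def hostL (A : List (List Bool)) (n k i j : ℕ) : List (ℤ × ℤ) :=
  if i ≤ j then apt n k i j :: bpt n k i j :: (List.range n).flatMap fun u =>
    ((List.range n).filter (fun v => alB A i j u v)).map (fun v => vpt n k i j u v) else []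

/-- the frame -/
def frL (n k : ℕ) : List (ℤ × ℤ) :=
  [(1, pwr n k (EE n k)), (p2 k k + 5, pwr n k (EE n k)), (2, pwr n k (EE n k) + 2),
    (0, pwr n k (EE n k) + 1), (0, pwr n k (EE n k)), (0, pwr n k (EE n k) - 2),
    (2, pwr n k (EE n k) - 1)]

/-- the constructed configuration, as a list of different points -/
def instL (z : Src) : List (ℤ × ℤ) :=
  (frL (nS z) (kS z) ++ (List.range (kS z)).flatMap fun i => (List.range (kS z)).flatMap fun j =>
    hostL z.1 (nS z) (kS z) i j).dedup

/-- number of points looked for -/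
def KV (k : ℕ) : ℕ := 7 + 3 * (k * (k + 1) / 2)

/-! ### Membership -/

theorem pwr_eq {n k e : ℕ} (h : e ≤ EE n k + 1) : pwr n k e = WW k ^ e := by
  unfold pwr WW
  rw [min_eq_left h, pow_mul]

theorem p2_eq {k i : ℕ} (h : i ≤ k) : p2 k i = 2 ^ i := by
  unfold p2
  rw [min_eq_left h]

theorem apt_eq {n k i j : ℕ} (hi : i < k) (hj : j < k) : apt n k i j = (xh i j, ya k i j) := by
  unfold apt xh ya
  rw [p2_eq hi.le, p2_eq hj.le, pwr_eq (by have := exA_lt (n := n) hi; omega),
    pwr_eq (by have := exA_lt (n := n) hj; omega)]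

theorem bpt_eq {n k i j : ℕ} (hi : i < k) (hj : j < k) : bpt n k i j = (xh i j, yb n k i j) := by
  unfold bpt xh yb
  rw [p2_eq hi.le, p2_eq hj.le, pwr_eq (by have := exB_lt (n := n) hi; omega),
    pwr_eq (by have := exB_lt (n := n) hj; omega), pwr_eq le_rfl]

theorem vpt_eq {n k i j u v : ℕ} (hi : i < k) (hj : j < k) (hu : u < n) (hv : v < n) :
    vpt n k i j u v = (xh i j, yv n k i j u v) := by
  unfold vpt xh yv
  rw [p2_eq hi.le, p2_eq hj.le, pwr_eq (by have := exV_lt hi hu; omega),
    pwr_eq (by have := exV_lt hj hv; omega), pwr_eq le_rfl]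

theorem alB_iff {A : List (List Bool)} {i j u v : ℕ} :
    alB A i j u v = true ↔ allowed (ed A) i j u v := by
  unfold alB allowed
  by_cases h : i = j
  · simp [h]
  · simp [h]

theorem mem_frL {n k : ℕ} {p : ℤ × ℤ} : p ∈ frL n k ↔ ∃ f, p = frp n k f := by
  have h1 : pwr n k (EE n k) = TT n k := pwr_eq (by omega)
  have h2 : p2 k k = 2 ^ k := p2_eq le_rfl
  unfold frL frp
  rw [h1, h2]
  constructor
  · intro h
    simp only [List.mem_cons, List.not_mem_nil, or_false] at h
    rcases h with rfl | rfl | rfl | rfl | rfl | rfl | rfl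
    · exact ⟨0, by simp [fx, fd]⟩
    · exact ⟨1, by simp [fx, fd]⟩
    · exact ⟨2, by simp [fx, fd]⟩
    · exact ⟨3, by simp [fx, fd]⟩
    · exact ⟨4, by simp [fx, fd]⟩
    · exact ⟨5, by simp [fx, fd]; ring⟩
    · exact ⟨6, by simp [fx, fd]; ring⟩
  · rintro ⟨f, rfl⟩
    fin_cases f <;> simp [fx, fd, sub_eq_add_neg]

theorem mem_instL {z : Src} {p : ℤ × ℤ} : p ∈ instL z ↔ InS (nS z) (kS z) (ed z.1) p := by
  unfold instL InS
  rw [List.mem_dedup, List.mem_append, mem_frL]
  apply or_congr Iff.rfl
  simp only [List.mem_flatMap, List.mem_range]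
  constructor
  · rintro ⟨i, hi, j, hj, h⟩
    unfold hostL at h
    by_cases hij : i ≤ j
    · rw [if_pos hij] at h
      simp only [List.mem_cons, List.mem_flatMap, List.mem_range, List.mem_map,
        List.mem_filter] at h
      refine ⟨i, j, hij, hj, ?_⟩
      rcases h with rfl | rfl | ⟨u, hu, v, ⟨hv, ha⟩, rfl⟩
      · rw [apt_eq hi hj]; exact ⟨rfl, Or.inl rfl⟩
      · rw [bpt_eq hi hj]; exact ⟨rfl, Or.inr (Or.inl rfl)⟩
      · rw [vpt_eq hi hj hu hv]
        exact ⟨rfl, Or.inr (Or.inr ⟨u, v, hu, hv, alB_iff.1 ha, rfl⟩)⟩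
    · rw [if_neg hij] at h
      simp at h
  · rintro ⟨i, j, hij, hj, hx, h⟩
    have hi : i < kS z := by omega
    refine ⟨i, hi, j, hj, ?_⟩
    unfold hostL
    rw [if_pos hij]
    simp only [List.mem_cons, List.mem_flatMap, List.mem_range, List.mem_map,
      List.mem_filter]
    rcases h with h | h | ⟨u, v, hu, hv, ha, h⟩
    · left; rw [apt_eq hi hj]; exact Prod.ext hx h
    · right; left; rw [bpt_eq hi hj]; exact Prod.ext hx h
    · right; right
      exact ⟨u, hu, v, ⟨hv, alB_iff.2 ha⟩, by rw [vpt_eq hi hj hu hv]; exact (Prod.ext hx h).symm⟩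

theorem card_pairsF (k : ℕ) : (pairsF k).card = k * (k + 1) / 2 := by
  have key : 2 * (pairsF k).card = k * (k + 1) := by
    induction k with
    | zero => rfl
    | succ k ih =>
      have h1 : pairsF (k + 1) = pairsF k ∪ (Finset.range (k + 1)).image (fun i => (i, k)) := by
        ext ⟨a, b⟩
        rw [Finset.mem_union, mem_pairsF, mem_pairsF, Finset.mem_image]
        constructor
        · rintro ⟨h1, h2⟩
          dsimp only at h1 h2
          by_cases hb : b < k
          · exact Or.inl ⟨h1, hb⟩
          · have : b = k := by omega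
            subst this
            exact Or.inr ⟨a, Finset.mem_range.2 (by omega), rfl⟩
        · rintro (⟨h1, h2⟩ | ⟨i, hi, h⟩)
          · dsimp only at h1 h2 ⊢
            exact ⟨h1, by omega⟩
          · rw [Finset.mem_range] at hi
            simp only [Prod.mk.injEq] at h
            obtain ⟨rfl, rfl⟩ := h
            dsimp only
            omega
      have h2 : Disjoint (pairsF k) ((Finset.range (k + 1)).image (fun i => (i, k))) := by
        rw [Finset.disjoint_left]
        rintro ⟨a, b⟩ ha hb
        rw [mem_pairsF] at ha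
        rw [Finset.mem_image] at hb
        obtain ⟨i, _, hi⟩ := hb
        simp only [Prod.mk.injEq] at hi
        dsimp only at ha
        omega
      rw [h1, Finset.card_union_of_disjoint h2, Finset.card_image_of_injective, Finset.card_range,
        mul_add, ih]
      · ring
      · intro a b h
        simpa using h
  omega

/-! ### Computation in polynomial time -/

attribute [local fun_prop] Poly.natCast_int

section

variable {α : Type} [TEnc α] {z : α → Src}

theorem upoly_nS (hz : Poly z) : UPoly (fun a => nS (z a)) := UPoly.length (Poly.fst hz)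

theorem upoly_kS (hz : Poly z) : UPoly (fun a => kS (z a)) :=
  UPoly.of_le (Poly.min (Poly.snd hz) (Poly.length (Poly.fst hz))) (upoly_nS hz)
    (fun _ => min_le_right _ _)

theorem upoly_EE (hz : Poly z) : UPoly (fun a => EE (nS (z a)) (kS (z a))) :=
  UPoly.add (UPoly.add (UPoly.const 1) (UPoly.mul (UPoly.const 2) (upoly_kS hz)))
    (UPoly.mul (upoly_kS hz) (upoly_nS hz))

theorem poly_nS (hz : Poly z) : Poly (fun a => nS (z a)) := (upoly_nS hz).toPoly
theorem poly_kS (hz : Poly z) : Poly (fun a => kS (z a)) := (upoly_kS hz).toPoly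
theorem poly_EE (hz : Poly z) : Poly (fun a => EE (nS (z a)) (kS (z a))) := (upoly_EE hz).toPoly

theorem poly_pwr (hz : Poly z) {e : α → ℕ} (he : Poly e) :
    Poly (fun a => pwr (nS (z a)) (kS (z a)) (e a)) :=
  Pool.Agent.NPC.Poly.ipow (Poly.const 2) (UPoly.mul (UPoly.add (upoly_kS hz) (UPoly.const 7))
    (UPoly.of_le (Poly.min he (Poly.add (poly_EE hz) (Poly.const 1)))
      (UPoly.add (upoly_EE hz) (UPoly.const 1)) (fun _ => min_le_right _ _)))

theorem poly_p2 (hz : Poly z) {i : α → ℕ} (hi : Poly i) :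
    Poly (fun a => p2 (kS (z a)) (i a)) :=
  Pool.Agent.NPC.Poly.ipow (Poly.const 2)
    (UPoly.of_le (Poly.min hi (poly_kS hz)) (upoly_kS hz) (fun _ => min_le_right _ _))

end

end Pool.Agent.NPC.W2h57
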