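import Pool.Agent.W2helper57.AV.Inst

set_option autoImplicit false

/-!
# The instances and the orientation tables are computed in polynomial time
-/

namespace Pool.Agent.NPC.W2h57

open Pool.Agent.NPC Pool.Agent.H633R2 Pool.Agent.W2helper57.AV

section

variable {α : Type} [TEnc α] {z : α → Src} {i j u v : α → ℕ}

theorem poly_exA (hi : Poly i) : Poly (fun a => exA (i a)) := Poly.add (Poly.const 1) hi

theorem poly_exV (hz : Poly z) (hi : Poly i) (hu : Poly u) :
    Poly (fun a => exV (nS (z a)) (kS (z a)) (i a) (u a)) :=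
  Poly.add (Poly.add (Poly.add (Poly.const 1) (poly_kS hz)) (Poly.mul hi (poly_nS hz))) hu

theorem poly_exB (hz : Poly z) (hi : Poly i) :
    Poly (fun a => exB (nS (z a)) (kS (z a)) (i a)) :=
  Poly.add (Poly.add (Poly.add (Poly.const 1) (poly_kS hz))
    (Poly.mul (poly_kS hz) (poly_nS hz))) hi

theorem poly_xh (hz : Poly z) (hi : Poly i) (hj : Poly j) :
    Poly (fun a => p2 (kS (z a)) (i a) + p2 (kS (z a)) (j a) + 1) :=
  Poly.iadd (Poly.iadd (poly_p2 hz hi) (poly_p2 hz hj)) (Poly.const 1)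

theorem poly_apt (hz : Poly z) (hi : Poly i) (hj : Poly j) :
    Poly (fun a => apt (nS (z a)) (kS (z a)) (i a) (j a)) :=
  Poly.pair (poly_xh hz hi hj)
    (Poly.iadd (poly_pwr hz (poly_exA hi)) (poly_pwr hz (poly_exA hj)))

theorem poly_top (hz : Poly z) : Poly (fun a => pwr (nS (z a)) (kS (z a))
    (EE (nS (z a)) (kS (z a)) + 1)) :=
  poly_pwr hz (Poly.add (poly_EE hz) (Poly.const 1))

theorem poly_bpt (hz : Poly z) (hi : Poly i) (hj : Poly j) :
    Poly (fun a => bpt (nS (z a)) (kS (z a)) (i a) (j a)) :=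
  Poly.pair (poly_xh hz hi hj)
    (Poly.iadd (Poly.iadd (poly_pwr hz (poly_exB hz hi)) (poly_pwr hz (poly_exB hz hj)))
      (Poly.imul (Poly.const 4) (poly_top hz)))

theorem poly_vpt (hz : Poly z) (hi : Poly i) (hj : Poly j) (hu : Poly u) (hv : Poly v) :
    Poly (fun a => vpt (nS (z a)) (kS (z a)) (i a) (j a) (u a) (v a)) :=
  Poly.pair (poly_xh hz hi hj)
    (Poly.iadd (Poly.iadd (poly_pwr hz (poly_exV hz hi hu)) (poly_pwr hz (poly_exV hz hj hv)))
      (Poly.imul (Poly.const 2) (poly_top hz)))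

theorem poly_ed (hz : Poly z) (hu : Poly u) (hv : Poly v) :
    Poly (fun a => ed (z a).1 (u a) (v a)) :=
  Poly.and (Poly.not (Poly.decide_eq hu hv)) (Poly.or
    (Poly.getD (Poly.getD (Poly.fst hz) hu (Poly.const [])) hv (Poly.const false))
    (Poly.getD (Poly.getD (Poly.fst hz) hv (Poly.const [])) hu (Poly.const false)))

theorem poly_alB (hz : Poly z) (hi : Poly i) (hj : Poly j) (hu : Poly u) (hv : Poly v) :
    Poly (fun a => alB (z a).1 (i a) (j a) (u a) (v a)) :=
  Poly.ite (Poly.decide_eq hi hj) (Poly.decide_eq hu hv) (poly_ed hz hu hv)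

theorem poly_inner (hz : Poly z) (hi : Poly i) (hj : Poly j) (hu : Poly u) :
    Poly (fun a => ((List.range (nS (z a))).filter
      (fun v => alB (z a).1 (i a) (j a) (u a) v)).map
        (fun v => vpt (nS (z a)) (kS (z a)) (i a) (j a) (u a) v)) := by
  have g : ∀ {β : Type} [TEnc β] {f : α → β}, Poly f → Poly (fun p : α × ℕ => f p.1) :=
    fun hf => hf.comp (Poly.fst Poly.id)
  refine Poly.map (F := fun a v => vpt (nS (z a)) (kS (z a)) (i a) (j a) (u a) v) ?_
    (poly_vpt (g hz) (g hi) (g hj) (g hu) (Poly.snd Poly.id))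
  exact Poly.filter (p := fun a v => alB (z a).1 (i a) (j a) (u a) v) (upoly_nS hz).range
    (poly_alB (g hz) (g hi) (g hj) (g hu) (Poly.snd Poly.id))

theorem poly_hostL (hz : Poly z) (hi : Poly i) (hj : Poly j) :
    Poly (fun a => hostL (z a).1 (nS (z a)) (kS (z a)) (i a) (j a)) := by
  have g : ∀ {β : Type} [TEnc β] {f : α → β}, Poly f → Poly (fun p : α × ℕ => f p.1) :=
    fun hf => hf.comp (Poly.fst Poly.id)
  refine Poly.ite (Poly.decide_le hi hj) (Poly.cons (poly_apt hz hi hj)
    (Poly.cons (poly_bpt hz hi hj) ?_)) (Poly.const [])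
  exact Poly.flatMap (F := fun a u => ((List.range (nS (z a))).filter
      (fun v => alB (z a).1 (i a) (j a) u v)).map
        (fun v => vpt (nS (z a)) (kS (z a)) (i a) (j a) u v)) (upoly_nS hz).range
    (poly_inner (g hz) (g hi) (g hj) (Poly.snd Poly.id))

theorem poly_frL (hz : Poly z) : Poly (fun a => frL (nS (z a)) (kS (z a))) := by
  have hT := poly_pwr hz (poly_EE hz)
  unfold frL
  exact Poly.cons (Poly.pair (Poly.const 1) hT) (Poly.cons (Poly.pair
    (Poly.iadd (poly_p2 hz (poly_kS hz)) (Poly.const 5)) hT)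
    (Poly.cons (Poly.pair (Poly.const 2) (Poly.iadd hT (Poly.const 2)))
    (Poly.cons (Poly.pair (Poly.const 0) (Poly.iadd hT (Poly.const 1)))
    (Poly.cons (Poly.pair (Poly.const 0) hT)
    (Poly.cons (Poly.pair (Poly.const 0) (Poly.isub hT (Poly.const 2)))
    (Poly.cons (Poly.pair (Poly.const 2) (Poly.isub hT (Poly.const 1))) (Poly.const [])))))))

end

section

variable {α β : Type} [TEnc α] [TEnc β]

theorem sz_sublist {l l' : List β} (h : l.Sublist l') : sz l ≤ sz l' := by
  induction h with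
  | slnil => exact le_rfl
  | cons a _ ih => simp; omega
  | cons_cons a _ ih => simp; omega

theorem poly_dedup [DecidableEq β] {l : α → List β} (hl : Poly l) :
    Poly (fun a => (l a).dedup) := by
  obtain ⟨r, hr⟩ := hl.sz_le
  have key : ∀ l : List β, l.foldr (fun b acc => if b ∈ acc then acc else b :: acc) [] =
      l.dedup := by
    intro l
    induction l with
    | nil => rfl
    | cons b l ih =>
      rw [List.foldr_cons, ih]
      by_cases h : b ∈ l
      · rw [if_pos (List.mem_dedup.2 h), List.dedup_cons_of_mem h]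
      · rw [if_neg (fun h' => h (List.mem_dedup.1 h')), List.dedup_cons_of_notMem h]
  refine (Poly.foldr (l := l) (s := fun _ => ([] : List β))
    (F := fun _ b acc => if b ∈ acc then acc else b :: acc) hl (Poly.const _)
    (Poly.ite (Poly.decide_mem (Poly.fst (Poly.snd Poly.id)) (Poly.snd (Poly.snd Poly.id)))
      (Poly.snd (Poly.snd Poly.id))
      (Poly.cons (Poly.fst (Poly.snd Poly.id)) (Poly.snd (Poly.snd Poly.id)))) r ?_).congr
    fun a => key (l a)
  intro a k _
  rw [key]
  exact (sz_sublist (List.dedup_sublist _)).trans ((Poly.sz_drop_le _ _).trans (hr a))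

end

theorem poly_instL : Poly instL := by
  have hid : Poly (fun z : Src => z) := Poly.id
  refine poly_dedup (Poly.append (poly_frL hid) ?_)
  refine Poly.flatMap (F := fun (z : Src) i => (List.range (kS z)).flatMap fun j =>
    hostL z.1 (nS z) (kS z) i j) (upoly_kS hid).range ?_
  refine Poly.flatMap (F := fun (p : Src × ℕ) j => hostL p.1.1 (nS p.1) (kS p.1) p.2 j)
    (upoly_kS (Poly.fst Poly.id)).range ?_
  exact poly_hostL (z := fun q : (Src × ℕ) × ℕ => q.1.1) (Poly.fst (Poly.fst Poly.id))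
    (Poly.snd (Poly.fst Poly.id)) (Poly.snd Poly.id)

theorem nodup_instL (z : Src) : (instL z).Nodup := List.nodup_dedup _

/-! ### Orientation tables -/

/-- orientation of integer points, as an integer -/
def orZ (p q r : ℤ × ℤ) : ℤ := if dt p q r < 0 then 1 else if 0 < dt p q r then -1 else 0

/-- the table of all orientations -/
def tabZ (l : List (ℤ × ℤ)) : List (List (List ℤ)) :=
  l.map fun p => l.map fun q => l.map fun r => orZ p q r

theorem poly_dt {α : Type} [TEnc α] {p q r : α → ℤ × ℤ} (hp : Poly p) (hq : Poly q)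
    (hr : Poly r) : Poly (fun a => dt (p a) (q a) (r a)) := by
  unfold dt
  have p1 := Poly.fst hp
  have p2 := Poly.snd hp
  have q1 := Poly.fst hq
  have q2 := Poly.snd hq
  have r1 := Poly.fst hr
  have r2 := Poly.snd hr
  exact Poly.isub (Poly.iadd (Poly.isub (Poly.iadd (Poly.isub (Poly.imul p1 q2) (Poly.imul p1 r2))
    (Poly.imul q1 r2)) (Poly.imul q1 p2)) (Poly.imul r1 p2)) (Poly.imul r1 q2)

theorem poly_orZ {α : Type} [TEnc α] {p q r : α → ℤ × ℤ} (hp : Poly p) (hq : Poly q)
    (hr : Poly r) : Poly (fun a => orZ (p a) (q a) (r a)) :=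
  Poly.ite (Poly.ilt (poly_dt hp hq hr) (Poly.const 0)) (Poly.const 1)
    (Poly.ite (Poly.ilt (Poly.const 0) (poly_dt hp hq hr)) (Poly.const (-1)) (Poly.const 0))

theorem poly_tabZ : Poly tabZ := by
  have hid : Poly (fun l : List (ℤ × ℤ) => l) := Poly.id
  refine Poly.map (F := fun (l : List (ℤ × ℤ)) p => l.map fun q => l.map fun r => orZ p q r) hid ?_
  refine Poly.map (F := fun (x : List (ℤ × ℤ) × (ℤ × ℤ)) q => x.1.map fun r => orZ x.2 q r)
    (Poly.fst Poly.id) ?_
  refine Poly.map (F := fun (x : (List (ℤ × ℤ) × (ℤ × ℤ)) × (ℤ × ℤ)) r => orZ x.1.2 x.2 r)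
    (Poly.fst (Poly.fst Poly.id)) ?_
  exact poly_orZ (Poly.snd (Poly.fst (Poly.fst Poly.id))) (Poly.snd (Poly.fst Poly.id))
    (Poly.snd Poly.id)

/-! ### The number of points looked for -/

theorem poly_KV {α : Type} [TEnc α] {k : α → ℕ} (hk : Poly k) : Poly (fun a => KV (k a)) :=
  Poly.add (Poly.const 7) (Poly.mul (Poly.const 3)
    (Poly.div (Poly.mul hk (Poly.add hk (Poly.const 1))) (Poly.const 2)))

theorem KV_computable : Computable KV := by
  have h : Primrec KV := by
    unfold KV
    exact Primrec.nat_add.comp (Primrec.const 7) (Primrec.nat_mul.comp (Primrec.const 3)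
      (Primrec.nat_div.comp (Primrec.nat_mul.comp Primrec.id
        (Primrec.nat_add.comp Primrec.id (Primrec.const 1))) (Primrec.const 2)))
  exact h.to_comp

end Pool.Agent.NPC.W2h57
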