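import Pool.Agent.W2helper57.AV.InstP

set_option autoImplicit false

/-!
# Correctness of the reduction, and W[1]-hardness
-/

namespace Pool.Agent.W2helper57.AV

open Pool.Agent.NPC Pool.Agent.H633R2 Pool.Agent.NPC.W2h57

/-- the exponents for a choice of vertices -/
def exx (n k : ℕ) (x : ℕ → ℕ) (τ : Fin 3) (i : ℕ) : ℕ :=
  if τ = 0 then exA i else if τ = 1 then exV n k i (x i) else exB n k i

theorem exx0 (n k : ℕ) (x : ℕ → ℕ) (i : ℕ) : exx n k x 0 i = exA i := rfl
theorem exx1 (n k : ℕ) (x : ℕ → ℕ) (i : ℕ) : exx n k x 1 i = exV n k i (x i) := rfl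
theorem exx2 (n k : ℕ) (x : ℕ → ℕ) (i : ℕ) : exx n k x 2 i = exB n k i := rfl

theorem exV_inj' {n k : ℕ} {x : ℕ → ℕ} (hx : ∀ i < k, x i < n) {i j : ℕ} (hi : i < k) (hj : j < k)
    (h : exV n k i (x i) = exV n k j (x j)) : i = j := by
  have h1 := hx i hi
  have h2 := hx j hj
  unfold exV at h
  rcases lt_trichotomy i j with h3 | h3 | h3
  · have : (i + 1) * n ≤ j * n := Nat.mul_le_mul_right _ h3
    rw [add_mul, one_mul] at this
    omega
  · exact h3
  · have : (j + 1) * n ≤ i * n := Nat.mul_le_mul_right _ h3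
    rw [add_mul, one_mul] at this
    omega

theorem exV_bd {n k : ℕ} {x : ℕ → ℕ} (hx : ∀ i < k, x i < n) {i : ℕ} (hi : i < k) :
    1 + k ≤ exV n k i (x i) ∧ exV n k i (x i) < 1 + k + k * n := by
  have h1 := hx i hi
  unfold exV
  have : (i + 1) * n ≤ k * n := Nat.mul_le_mul_right _ hi
  rw [add_mul, one_mul] at this
  omega

/-- the parameters of a choice of vertices -/
def mkPar (n k : ℕ) (x : ℕ → ℕ) (hx : ∀ i < k, x i < n) : Par where
  k := k
  E := EE n k
  ex := exx n k x
  ex_pos := by
    intro τ i hi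
    have h1 := exV_bd hx hi
    unfold exx exA exB
    split_ifs <;> omega
  ex_lt := by
    intro τ i hi
    have h1 := exV_bd hx hi
    unfold exx exA exB EE
    split_ifs <;> omega
  ex_inj := by
    intro τ i τ' i' hi hi' h
    have h1 := exV_bd hx hi
    have h2 := exV_bd hx hi'
    fin_cases τ <;> fin_cases τ' <;>
      simp only [Fin.zero_eta, Fin.mk_one, Fin.reduceFinMk, exx0, exx1, exx2] at h ⊢
    · refine ⟨trivial, ?_⟩; unfold exA at h; omega
    · exfalso; unfold exA at h; omega
    · exfalso; unfold exA exB at h; omega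
    · exfalso; unfold exA at h; omega
    · exact ⟨trivial, exV_inj' hx hi hi' h⟩
    · exfalso; unfold exB at h; omega
    · exfalso; unfold exA exB at h; omega
    · exfalso; unfold exB at h; omega
    · refine ⟨trivial, ?_⟩; unfold exB at h; omega

theorem InS_pt {n k : ℕ} {ed : ℕ → ℕ → Bool} {x : ℕ → ℕ} (hx : ∀ i < k, x i < n)
    (hc : ∀ i < k, ∀ j < k, i ≠ j → ed (x i) (x j) = true) {q : Q}
    (hq : q.Valid (mkPar n k x hx)) : InS n k ed (pt (mkPar n k x hx) q) := by
  cases q with
  | fr f => exact Or.inl ⟨f, rfl⟩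
  | ho τ i j =>
    obtain ⟨hij, hj⟩ := hq
    change j < k at hj
    refine Or.inr ⟨i, j, hij, hj, rfl, ?_⟩
    fin_cases τ
    · left
      simp only [Fin.zero_eta, pt, Y, hh, Matrix.cons_val_zero, zero_mul, add_zero]
      rfl
    · right; right
      refine ⟨x i, x j, hx i (by omega), hx j hj, ?_, rfl⟩
      unfold allowed
      by_cases h : i = j
      · rw [if_pos h, h]
      · rw [if_neg h]
        exact hc i (by omega) j hj h
    · right; left
      rfl

theorem conf_eq (l : List (ℤ × ℤ)) : conf l = img l.toFinset := by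
  classical
  unfold conf ptSet img
  ext p
  simp only [List.mem_toFinset, List.mem_map, Finset.mem_image]
  rfl

/-! ### Cliques -/

theorem hasClique_iff (A : List (List Bool)) (k : ℕ) :
    HasClique (A, k) ↔ ∃ x : ℕ → ℕ, (∀ i < k, x i < A.length) ∧
      ∀ i < k, ∀ j < k, i ≠ j → ed A (x i) (x j) = true := by
  have hadj : ∀ a b : Fin A.length, (graphOf A).Adj a b ↔ ed A a b = true := by
    intro a b
    unfold graphOf ed
    simp [Fin.ext_iff]
  have h0 : HasClique (A, k) ↔ ¬ (graphOf A).CliqueFree k := by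
    unfold HasClique SimpleGraph.CliqueFree
    push Not
    rfl
  rw [h0, SimpleGraph.not_cliqueFree_iff_top_isContained]
  constructor
  · rintro ⟨e⟩
    refine ⟨fun i => if h : i < k then (e ⟨i, h⟩ : ℕ) else 0, ?_, ?_⟩
    · intro i hi
      simp [hi]
    · intro i hi j hj hij
      simp only [hi, hj, dif_pos]
      rw [← hadj]
      exact e.toHom.map_adj (by simp [Fin.ext_iff, hij])
  · rintro ⟨x, hx, hc⟩
    have hinj : ∀ i < k, ∀ j < k, x i = x j → i = j := by
      intro i hi j hj hxy
      by_contra hij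
      have := hc i hi j hj hij
      unfold ed at this
      simp [hxy] at this
    refine ⟨⟨⟨fun i => ⟨x i, hx i i.2⟩, ?_⟩, ?_⟩⟩
    · intro a b h
      rw [hadj]
      simp only [SimpleGraph.completeGraph_eq_top, SimpleGraph.top_adj] at h
      exact hc a a.2 b b.2 (fun h' => h (Fin.ext h'))
    · intro a b hab
      have h1 : (⟨x a, hx a a.2⟩ : Fin A.length) = ⟨x b, hx b b.2⟩ := hab
      exact Fin.ext (hinj a a.2 b b.2 (by simpa using h1))

theorem clique_le {A : List (List Bool)} {k : ℕ} (h : HasClique (A, k)) : k ≤ A.length := by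
  obtain ⟨S, hS⟩ := h
  have h1 := hS.card_eq
  have h2 := Finset.card_le_univ S
  rw [Fintype.card_fin] at h2
  simp only at h1 h2
  omega

theorem ed_symm (A : List (List Bool)) (u v : ℕ) : ed A u v = ed A v u := by
  unfold ed
  rw [Bool.or_comm]
  congr 2
  rw [decide_eq_decide]
  exact eq_comm

section

variable {𝒞 : Finset (Finset (ℝ × ℝ))} (h𝒞 : ∀ S, AvoidsAll 𝒞 S ↔ Good S)

include h𝒞

theorem avoids_le (z : Src) : AVOIDS 𝒞 (conf (instL z)) ≤ KV (kS z) := by
  classical
  unfold AVOIDS
  refine Finset.sup_le fun S' hS' => ?_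
  rw [Finset.mem_filter, Finset.mem_powerset, conf_eq] at hS'
  obtain ⟨hsub, hav⟩ := hS'
  have hgood := (h𝒞 S').1 hav
  have h1 : S' = img ((instL z).toFinset.filter (fun p => up p ∈ S')) := by
    ext p
    constructor
    · intro hp
      have := hsub hp
      unfold img at this
      rw [Finset.mem_image] at this
      obtain ⟨q, hq, rfl⟩ := this
      rw [mem_img, Finset.mem_filter]
      exact ⟨hq, hp⟩
    · intro hp
      unfold img at hp
      rw [Finset.mem_image] at hp
      obtain ⟨q, hq, rfl⟩ := hp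
      exact (Finset.mem_filter.1 hq).2
  have hA : ∀ p ∈ (instL z).toFinset.filter (fun p => up p ∈ S'),
      InS (nS z) (kS z) (ed z.1) p := by
    intro p hp
    exact mem_instL.1 (List.mem_toFinset.1 (Finset.mem_filter.1 hp).1)
  rw [h1] at hgood
  rw [h1, card_img]
  have := card_le hA hgood
  rw [card_pairsF] at this
  exact this

theorem avoids_iff (z : Src) (hk : z.2 ≤ z.1.length) :
    HasClique z ↔ KV z.2 ≤ AVOIDS 𝒞 (conf (instL z)) := by
  classical
  have hkS : kS z = z.2 := min_eq_left hk
  obtain ⟨A, k⟩ := z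
  dsimp only at hk hkS
  rw [hasClique_iff]
  constructor
  · rintro ⟨x, hx, hc⟩
    have hsub : CS (mkPar A.length k x hx) ⊆ conf (instL (A, k)) := by
      intro p hp
      unfold CS at hp
      rw [Finset.mem_image] at hp
      obtain ⟨q, hq, rfl⟩ := hp
      rw [conf_eq]
      unfold up'
      rw [mem_img, List.mem_toFinset, mem_instL, hkS]
      exact InS_pt hx hc ((mem_names _).1 hq)
    have hav : AvoidsAll 𝒞 (CS (mkPar A.length k x hx)) := (h𝒞 _).2 (CS_avoids _)
    have hcard := card_CS (mkPar A.length k x hx)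
    have hk' : (mkPar A.length k x hx).k = k := rfl
    rw [hk', card_pairsF] at hcard
    change 7 + 3 * (k * (k + 1) / 2) ≤ _
    rw [← hcard]
    unfold AVOIDS
    exact Finset.le_sup (f := Finset.card) (Finset.mem_filter.2 ⟨Finset.mem_powerset.2 hsub, hav⟩)
  · intro h
    have hpos : KV k - 1 < AVOIDS 𝒞 (conf (instL (A, k))) := by
      have : 0 < KV k := by unfold KV; omega
      dsimp only at h
      omega
    unfold AVOIDS at hpos
    rw [Finset.lt_sup_iff] at hpos
    obtain ⟨S', hS', hcard⟩ := hpos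
    rw [Finset.mem_filter, Finset.mem_powerset, conf_eq] at hS'
    obtain ⟨hsub, hav⟩ := hS'
    have hgood := (h𝒞 S').1 hav
    have h1 : S' = img ((instL (A, k)).toFinset.filter (fun p => up p ∈ S')) := by
      ext p
      constructor
      · intro hp
        have := hsub hp
        unfold img at this
        rw [Finset.mem_image] at this
        obtain ⟨q, hq, rfl⟩ := this
        rw [mem_img, Finset.mem_filter]
        exact ⟨hq, hp⟩
      · intro hp
        unfold img at hp
        rw [Finset.mem_image] at hp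
        obtain ⟨q, hq, rfl⟩ := hp
        exact (Finset.mem_filter.1 hq).2
    have hA : ∀ p ∈ (instL (A, k)).toFinset.filter (fun p => up p ∈ S'),
        InS A.length k (ed A) p := by
      intro p hp
      have := mem_instL.1 (List.mem_toFinset.1 (Finset.mem_filter.1 hp).1)
      rwa [hkS] at this
    rw [h1] at hgood
    rw [h1, card_img] at hcard
    have hK : 7 + 3 * (pairsF k).card ≤
        ((instL (A, k)).toFinset.filter (fun p => up p ∈ S')).card := by
      rw [card_pairsF]
      unfold KV at hcard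
      omega
    obtain ⟨x, hx, hc⟩ := sound hA hgood hK
    refine ⟨x, hx, fun i hi j hj hij => ?_⟩
    rcases lt_or_gt_of_ne hij with h2 | h2
    · exact hc i j h2 hj
    · rw [ed_symm]; exact hc j i h2 hi

/-! ### W[1]-hardness -/

/-- the reduction -/
def red (z : Src) : List (ℤ × ℤ) × ℕ := if z.2 ≤ z.1.length then (instL z, KV z.2) else ([], 1)

omit h𝒞 in
theorem poly_red : Pool.Agent.NPC.Poly red :=
  Poly.ite (Poly.decide_le (Poly.snd Poly.id) (Poly.length (Poly.fst Poly.id)))
    (Poly.pair poly_instL (poly_KV (Poly.snd Poly.id))) (Pool.Agent.NPC.Poly.const _)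

omit h𝒞 in
theorem red_pos {z : Src} (hk : z.2 ≤ z.1.length) : red z = (instL z, KV z.2) := if_pos hk

omit h𝒞 in
theorem red_neg {z : Src} (hk : ¬ z.2 ≤ z.1.length) : red z = ([], 1) := if_neg hk

omit h𝒞 in
theorem avoids_nil : AVOIDS 𝒞 (conf []) = 0 := by
  classical
  unfold AVOIDS conf ptSet
  apply Nat.eq_zero_of_le_zero
  refine Finset.sup_le fun S' hS' => ?_
  rw [Finset.mem_filter, Finset.mem_powerset] at hS'
  have := Finset.card_le_card hS'.1
  simpa using this

theorem red_iff (z : Src) : HasClique z ↔ (red z).2 ≤ AVOIDS 𝒞 (conf (red z).1) := by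
  by_cases hk : z.2 ≤ z.1.length
  · have h1 : (red z).1 = instL z := by rw [red_pos hk]
    have h2 : (red z).2 = KV z.2 := by rw [red_pos hk]
    have h3 := avoids_iff h𝒞 z hk
    rw [h1, h2]
    exact h3
  · rw [red_neg hk]
    constructor
    · intro h
      exact absurd (clique_le (A := z.1) (k := z.2) h) hk
    · intro h
      exfalso
      rw [avoids_nil] at h
      exact absurd h (by norm_num)

theorem w1hard : W1Hard (fun x : List (ℤ × ℤ) × ℕ => x.2)
    (fun x => x.2 ≤ AVOIDS 𝒞 (conf x.1)) := by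
  refine W1Hard.of_clique ⟨red, fun k => KV k + 1, FptTime.of_poly poly_red,
    add_computable KV_computable (Computable.const 1), fun z => ⟨red_iff h𝒞 z, ?_⟩⟩
  by_cases hk : z.2 ≤ z.1.length
  · rw [red_pos hk]
    exact Nat.le_succ _
  · rw [red_neg hk]
    exact Nat.le_add_left _ _

omit h𝒞 in
theorem tab_eq (l : List (ℤ × ℤ)) : orientTable (l.map up) = tabZ l := by
  unfold orientTable tabZ
  simp only [List.map_map]
  apply List.map_congr_left
  intro p _
  simp only [Function.comp]
  apply List.map_congr_left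
  intro q _
  apply List.map_congr_left
  intro r _
  change ((orient (up p) (up q) (up r) : SignType) : ℤ) = _
  rw [orient_up]
  unfold orZ
  rcases lt_trichotomy (dt p q r) 0 with h | h | h
  · rw [sign_neg h, if_pos h]; rfl
  · rw [h]; simp
  · rw [sign_pos h, if_neg (by omega), if_pos h]; rfl

omit h𝒞 in
/-- machines with fpt running time give programs with fpt running time -/
theorem FC_of_tm {α β : Type} {ea : α → List Bool} {eb : β → List Bool} {κ : α → ℕ} {f : α → β}
    (M : Turing.TM2ComputableAux Bool Bool) (h : ℕ → ℕ) (p : Polynomial ℕ) (hh : Computable h)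
    (hM : ∀ a, TmRuns M (ea a) (eb (f a)) (h (κ a) * p.eval (ea a).length)) : FC ea eb κ f := by
  obtain ⟨prog, c, hc⟩ := toCmd M _ hM
  refine ⟨prog, fun n => h n + 1, Polynomial.C c * (Polynomial.X + p + 1),
    add_computable hh (Computable.const 1), fun a => (hc a).mono ?_⟩
  simp only [Polynomial.eval_mul, Polynomial.eval_C, Polynomial.eval_add, Polynomial.eval_X,
    Polynomial.eval_one]
  generalize (ea a).length = x
  generalize Polynomial.eval x p = y
  generalize h (κ a) = w
  have : x + w * y + 1 ≤ (w + 1) * (x + y + 1) := by nlinarith [Nat.zero_le (w * x)]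
  calc c * (x + w * y + 1) ≤ c * ((w + 1) * (x + y + 1)) := Nat.mul_le_mul_left _ this
    _ = (w + 1) * (c * (x + y + 1)) := by ring

omit h𝒞 in
theorem TmRuns.mono {M : Turing.TM2ComputableAux Bool Bool} {x y : List Bool} {s t : ℕ}
    (h : TmRuns M x y s) (hst : s ≤ t) : TmRuns M x y t := by
  obtain ⟨h⟩ := h
  exact ⟨outputs_conv rfl rfl hst h⟩

omit h𝒞 in
theorem length_le_bits {α : Type} [TEnc α] (l : List α) : l.length ≤ (bits l).length :=
  (length_lt_sz l).le

omit h𝒞 in
/-- the composition of a computation with fpt running time in `F` and a polynomial time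
preprocessing, when `F` is bounded by a function of the parameter -/
theorem fpt_of_steps {β : Type} [TEnc β] {g : Src → β} {F : Src → ℕ} {K : ℕ → ℕ}
    (hK : Computable K) (hb : ∀ z : Src, F z ≤ K z.2)
    (h1 : FC (fun z : Src => bits (g z)) bits F F) (hg : Pool.Agent.NPC.Poly g) :
    FptTime (fun z : Src => z.2) F := by
  have h2 : FC bits (fun z : Src => bits (g z)) (fun z : Src => z.2) (fun z : Src => z) :=
    FC.of_PC (ea := bits) (eb := fun z : Src => bits (g z)) (fun z : Src => z.2)
      (f := fun z : Src => z) (show PC bits (fun z : Src => bits (g z)) (fun z : Src => z) from hg)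
  have h3 : FC bits bits (fun z : Src => z.2) (fun z : Src => F z) :=
    FC.comp (κ' := F) h1 h2 hK hb
  exact (fptTime_iff _ _).2 h3

omit h𝒞 in
theorem fpt_decide {F : Src → ℕ} (h4 : FptTime (fun z : Src => z.2) F) :
    FptTime (fun z : Src => z.2) (fun z : Src =>
      (decide (z.2 ≤ z.1.length) && decide (KV z.2 ≤ F z))) := by
  have h5 : FptTime (fun z : Src => z.2) (fun z : Src => (z, F z)) :=
    FptTime.pair (FptTime.of_poly Pool.Agent.NPC.Poly.id) h4
  refine FptTime.poly_comp (g := fun w : Src × ℕ =>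
    (decide (w.1.2 ≤ w.1.1.length) && decide (KV w.1.2 ≤ w.2))) ?_ h5
  exact Poly.and (Poly.decide_le (Poly.snd (Poly.fst Poly.id))
    (Poly.length (Poly.fst (Poly.fst Poly.id))))
    (Poly.decide_le (poly_KV (Poly.snd (Poly.fst Poly.id))) (Poly.snd Poly.id))

omit h𝒞 in
theorem fc_F (M : Turing.TM2ComputableAux Bool Bool) (f : ℕ → ℕ) (p : Polynomial ℕ)
    (hf : Computable f) (hM : ∀ l : List (ℝ × ℝ), l.Nodup →
        TmRuns M (bits (orientTable l)) (bits (AVOIDS 𝒞 (ptSet l)))
          (f (AVOIDS 𝒞 (ptSet l)) * p.eval l.length)) :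
    FC (fun z : Src => bits (tabZ (instL z))) bits (fun z => AVOIDS 𝒞 (conf (instL z)))
      (fun z => AVOIDS 𝒞 (conf (instL z))) := by
  refine FC_of_tm M f p hf fun z => ?_
  have h2 := hM ((instL z).map up) ((nodup_instL z).map up_inj)
  have h3 : ptSet ((instL z).map up) = conf (instL z) := rfl
  rw [tab_eq, h3] at h2
  refine TmRuns.mono h2 (Nat.mul_le_mul_left _ (eval_mono p ?_))
  rw [List.length_map]
  have h4 := length_le_bits (tabZ (instL z))
  have h5 : (tabZ (instL z)).length = (instL z).length := List.length_map _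
  rw [h5] at h4
  exact h4

/-- an fpt algorithm for `AVOIDS` in the orientation model solves Clique in fpt time -/
theorem clique_fpt (hM : ∃ (M : Turing.TM2ComputableAux Bool Bool) (f : ℕ → ℕ) (p : Polynomial ℕ),
      Computable f ∧ ∀ l : List (ℝ × ℝ), l.Nodup →
        TmRuns M (bits (orientTable l)) (bits (AVOIDS 𝒞 (ptSet l)))
          (f (AVOIDS 𝒞 (ptSet l)) * p.eval l.length)) :
    IsFpt (fun x : List (List Bool) × ℕ => x.2) HasClique := by
  obtain ⟨M, f, p, hf, hM⟩ := hM
  have hb : ∀ z : Src, AVOIDS 𝒞 (conf (instL z)) ≤ KV z.2 := by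
    intro z
    refine (avoids_le h𝒞 z).trans ?_
    unfold KV
    have h3 : kS z ≤ z.2 := min_le_left _ _
    have h4 : kS z * (kS z + 1) ≤ z.2 * (z.2 + 1) := Nat.mul_le_mul h3 (by omega)
    have h5 : kS z * (kS z + 1) / 2 ≤ z.2 * (z.2 + 1) / 2 := Nat.div_le_div_right h4
    omega
  have h1 := fc_F M f p hf hM
  have h4 := fpt_of_steps (g := fun z => tabZ (instL z))
    (F := fun z => AVOIDS 𝒞 (conf (instL z))) KV_computable hb h1
    (poly_tabZ.comp poly_instL)
  refine ⟨_, fpt_decide h4, fun z => ?_⟩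
  simp only [Bool.and_eq_true, decide_eq_true_eq]
  constructor
  · rintro ⟨h7, h8⟩
    exact (avoids_iff h𝒞 z h7).2 h8
  · intro h7
    have h8 := clique_le (A := z.1) (k := z.2) h7
    exact ⟨h8, (avoids_iff h𝒞 z h8).1 h7⟩

end

end Pool.Agent.W2helper57.AV
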