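import Pool.Agent.W2helper57.AV.Cls

set_option autoImplicit false

/-!
# Middle points of collinear triples; recognition of the frame
-/

namespace Pool.Agent.W2helper57.AV

variable (P : Par)

theorem X_lt_of_btw {a b c : ℤ} (h1 : a ≠ b) (h2 : b ≠ c) (h : 0 ≤ (b - a) * (c - b)) :
    (a < b ∧ b < c) ∨ (c < b ∧ b < a) := by
  rcases lt_or_gt_of_ne h1 with h3 | h3
  · left
    refine ⟨h3, ?_⟩
    by_contra h4
    have h5 : c < b := lt_of_le_of_ne (not_lt.1 h4) h2.symm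
    have : (b - a) * (c - b) < 0 := mul_neg_of_pos_of_neg (by linarith) (by linarith)
    linarith
  · right
    refine ⟨?_, h3⟩
    by_contra h4
    have h5 : b < c := lt_of_le_of_ne (not_lt.1 h4) h2
    have : (b - a) * (c - b) < 0 := mul_neg_of_neg_of_pos (by linarith) (by linarith)
    linarith

/-- names with the same first coordinate as a host point -/
theorem eq_ho_of_X {q : Q} {τ : Fin 3} {i j : ℕ} (hq : q.Valid P) (h : (Q.ho τ i j).Valid P)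
    (hX : X P q = X P (.ho τ i j)) : ∃ σ, q = .ho σ i j := by
  cases q with
  | fr f => exact absurd hX (X_fr_ne P h)
  | ho σ i' j' =>
    obtain ⟨rfl, rfl⟩ := X_ho_inj P hq h hX
    exact ⟨σ, rfl⟩

theorem eq_fr_of_X {q : Q} {f : Fin 7} (hq : q.Valid P) (hX : X P q = X P (.fr f)) :
    ∃ g, q = .fr g := by
  cases q with
  | fr g => exact ⟨g, rfl⟩
  | ho σ i' j' => exact absurd hX.symm (X_fr_ne P hq)

/-- the possible positions of a point between two others -/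
theorem mid_cls {p q r : Q} (hp : p.Valid P) (hq : q.Valid P) (hr : r.Valid P)
    (hpq : p ≠ q) (hqr : q ≠ r) (hpr : p ≠ r) (h : dt (pt P p) (pt P q) (pt P r) = 0)
    (hbX : 0 ≤ (X P q - X P p) * (X P r - X P q)) (hbY : 0 ≤ (Y P q - Y P p) * (Y P r - Y P q)) :
    (∃ i j, q = .ho 1 i j ∧ ((p = .ho 0 i j ∧ r = .ho 2 i j) ∨ (p = .ho 2 i j ∧ r = .ho 0 i j))) ∨
    (∃ τ i j, i < j ∧ q = .ho τ i j ∧
      ((p = .ho τ i i ∧ r = .ho τ j j) ∨ (p = .ho τ j j ∧ r = .ho τ i i))) ∨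
    (q = .fr 0 ∧ ((p = .fr 1 ∧ r = .fr 4) ∨ (p = .fr 4 ∧ r = .fr 1) ∨ (p = .fr 2 ∧ r = .fr 5) ∨
      (p = .fr 5 ∧ r = .fr 2) ∨ (p = .fr 3 ∧ r = .fr 6) ∨ (p = .fr 6 ∧ r = .fr 3))) ∨
    (q = .fr 4 ∧ ((p = .fr 3 ∧ r = .fr 5) ∨ (p = .fr 5 ∧ r = .fr 3))) := by
  have hk := one_le_two_pow_k P
  by_cases hX : X P p = X P q
  · -- vertical line
    have hX' := same_X P hp hq h hpq hX
    have hYpq : Y P p ≠ Y P q := fun he => hpq (pt_inj P hp hq (Prod.ext hX he))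
    have hYqr : Y P q ≠ Y P r := fun he => hqr (pt_inj P hq hr (Prod.ext (by
      change X P q = X P r; linarith) he))
    have hord := X_lt_of_btw hYpq hYqr hbY
    cases q with
    | fr g =>
      obtain ⟨f, rfl⟩ := eq_fr_of_X P hp hX
      obtain ⟨f', rfl⟩ := eq_fr_of_X P hr (hX'.trans hX)
      right; right; right
      simp only [X, Y] at hX hX' hord
      clear hYpq hYqr hbX hbY h
      fin_cases f <;> fin_cases g <;> fin_cases f' <;>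
        simp [fx, fd] at hX hX' hord hpq hqr hpr ⊢ <;> linarith
    | ho τ i j =>
      obtain ⟨σ, rfl⟩ := eq_ho_of_X P hp hq hX
      obtain ⟨σ', rfl⟩ := eq_ho_of_X P hr hq (hX'.trans hX)
      left
      refine ⟨i, j, ?_⟩
      have hmono : ∀ {a b : Fin 3}, Y P (.ho a i j) < Y P (.ho b i j) → a < b := by
        intro a b hab
        by_contra hc
        rcases (not_lt.1 hc).lt_or_eq with h1 | h1
        · exact absurd (Y_mono P hq.1 hq.2 h1) (not_lt.2 hab.le)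
        · rw [h1] at hab; exact lt_irrefl _ hab
      rcases hord with ⟨h1, h2⟩ | ⟨h1, h2⟩
      · have e1 := hmono h1
        have e2 := hmono h2
        have : σ = 0 ∧ τ = 1 ∧ σ' = 2 := by
          clear * - e1 e2
          omega
        obtain ⟨rfl, rfl, rfl⟩ := this
        simp
      · have e1 := hmono h1
        have e2 := hmono h2
        have : σ = 2 ∧ τ = 1 ∧ σ' = 0 := by
          clear * - e1 e2
          omega
        obtain ⟨rfl, rfl, rfl⟩ := this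
        simp
  · -- distinct first coordinates
    have hX2 : X P q ≠ X P r := by
      intro he
      have h1 : dt (pt P q) (pt P r) (pt P p) = 0 := by rw [dt_cyc]; exact h
      have := same_X P hq hr h1 hqr he
      exact hX this
    have hord := X_lt_of_btw hX hX2 hbX
    rcases hord with ⟨h1, h2⟩ | ⟨h1, h2⟩
    · rcases cls P hp hq hr h h1 h2 with ⟨τ, i, j, hij, rfl, rfl, rfl⟩ | ⟨rfl, rfl, rfl⟩ |
        ⟨rfl, rfl, rfl⟩ | ⟨rfl, rfl, rfl⟩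
      · right; left; exact ⟨τ, i, j, hij, rfl, Or.inl ⟨rfl, rfl⟩⟩
      · simp
      · simp
      · simp
    · have h3 : dt (pt P r) (pt P q) (pt P p) = 0 := by rw [dt_swap13, h, neg_zero]
      rcases cls P hr hq hp h3 h1 h2 with ⟨τ, i, j, hij, rfl, rfl, rfl⟩ | ⟨rfl, rfl, rfl⟩ |
        ⟨rfl, rfl, rfl⟩ | ⟨rfl, rfl, rfl⟩
      · right; left; exact ⟨τ, i, j, hij, rfl, Or.inr ⟨rfl, rfl⟩⟩
      · simp
      · simp
      · simp

/-- the plane point of a name -/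
noncomputable def up' (q : Q) : ℝ × ℝ := up (pt P q)

/-- the position of a point between two others, from orientations -/
theorem mid_of {w p q r : Q} (hp : p.Valid P) (hq : q.Valid P) (hr : r.Valid P)
    (hpq : p ≠ q) (hqr : q ≠ r) (hpr : p ≠ r)
    (h : orient (up' P p) (up' P q) (up' P r) = 0)
    (h1 : orient (up' P w) (up' P p) (up' P q) = orient (up' P w) (up' P q) (up' P r))
    (h2 : orient (up' P w) (up' P p) (up' P q) ≠ 0) :
    (∃ i j, q = .ho 1 i j ∧ ((p = .ho 0 i j ∧ r = .ho 2 i j) ∨ (p = .ho 2 i j ∧ r = .ho 0 i j))) ∨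
    (∃ τ i j, i < j ∧ q = .ho τ i j ∧
      ((p = .ho τ i i ∧ r = .ho τ j j) ∨ (p = .ho τ j j ∧ r = .ho τ i i))) ∨
    (q = .fr 0 ∧ ((p = .fr 1 ∧ r = .fr 4) ∨ (p = .fr 4 ∧ r = .fr 1) ∨ (p = .fr 2 ∧ r = .fr 5) ∨
      (p = .fr 5 ∧ r = .fr 2) ∨ (p = .fr 3 ∧ r = .fr 6) ∨ (p = .fr 6 ∧ r = .fr 3))) ∨
    (q = .fr 4 ∧ ((p = .fr 3 ∧ r = .fr 5) ∨ (p = .fr 5 ∧ r = .fr 3))) := by
  have h0 := orient_up_zero.1 h
  obtain ⟨a, b⟩ := btw_of h0 h1 h2
  exact mid_cls P hp hq hr hpq hqr hpr h0 a b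

/-- neighbours of a middle point -/
def nb : Q → List Q
  | .fr f => if f = 0 then [.fr 1, .fr 2, .fr 3, .fr 4, .fr 5, .fr 6] else [.fr 3, .fr 5]
  | .ho τ i j => [.ho 0 i j, .ho 2 i j, .ho τ i i, .ho τ j j]

theorem mem_nb {p q r : Q}
    (h : (∃ i j, q = .ho 1 i j ∧ ((p = .ho 0 i j ∧ r = .ho 2 i j) ∨
        (p = .ho 2 i j ∧ r = .ho 0 i j))) ∨
    (∃ τ i j, i < j ∧ q = .ho τ i j ∧
      ((p = .ho τ i i ∧ r = .ho τ j j) ∨ (p = .ho τ j j ∧ r = .ho τ i i))) ∨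
    (q = .fr 0 ∧ ((p = .fr 1 ∧ r = .fr 4) ∨ (p = .fr 4 ∧ r = .fr 1) ∨ (p = .fr 2 ∧ r = .fr 5) ∨
      (p = .fr 5 ∧ r = .fr 2) ∨ (p = .fr 3 ∧ r = .fr 6) ∨ (p = .fr 6 ∧ r = .fr 3))) ∨
    (q = .fr 4 ∧ ((p = .fr 3 ∧ r = .fr 5) ∨ (p = .fr 5 ∧ r = .fr 3)))) : p ∈ nb q ∧ r ∈ nb q := by
  rcases h with ⟨i, j, rfl, h | h⟩ | ⟨τ, i, j, _, rfl, h | h⟩ | ⟨rfl, h⟩ | ⟨rfl, h⟩
  · obtain ⟨rfl, rfl⟩ := h; simp [nb]
  · obtain ⟨rfl, rfl⟩ := h; simp [nb]
  · obtain ⟨rfl, rfl⟩ := h; simp [nb]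
  · obtain ⟨rfl, rfl⟩ := h; simp [nb]
  · rcases h with ⟨rfl, rfl⟩ | ⟨rfl, rfl⟩ | ⟨rfl, rfl⟩ | ⟨rfl, rfl⟩ | ⟨rfl, rfl⟩ | ⟨rfl, rfl⟩ <;>
      simp [nb]
  · rcases h with ⟨rfl, rfl⟩ | ⟨rfl, rfl⟩ <;> simp [nb]

/-- the frame is recognised -/
theorem frame_rec {z s1 s2 s3 s4 s5 s6 : Q} (hv : ∀ q ∈ [z, s1, s2, s3, s4, s5, s6], q.Valid P)
    (hn : [z, s1, s2, s3, s4, s5, s6].Nodup)
    (hF : FrameP orient (up' P z) (up' P s1) (up' P s2) (up' P s3) (up' P s4) (up' P s5)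
      (up' P s6)) : z = .fr 0 ∧ s1 = .fr 1 := by
  obtain ⟨⟨a1, a2, a3, a4⟩, ⟨b1, b2⟩, ⟨c1, c2⟩, ⟨d1, d2⟩, e1, e2⟩ := hF
  simp only [List.mem_cons, List.not_mem_nil, or_false, forall_eq_or_imp, forall_eq] at hv
  obtain ⟨vz, v1, v2, v3, v4, v5, v6⟩ := hv
  have hn' := hn
  simp only [List.nodup_cons, List.mem_cons, List.not_mem_nil, or_false, not_or,
    List.nodup_nil, and_true, not_false_eq_true] at hn
  obtain ⟨⟨n1, n2, n3, n4, n5, n6⟩, ⟨m2, m3, m4, m5, m6⟩, ⟨l3, l4, l5, l6⟩, ⟨k4, k5, k6⟩,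
    ⟨j5, j6⟩, i6⟩ := hn
  have A := mid_of P v1 vz v4 (Ne.symm n1) n4 m4 a1 b1 b2
  have B := mid_of P v2 vz v5 (Ne.symm n2) n5 l5 a2 c1 c2
  have C := mid_of P v3 vz v6 (Ne.symm n3) n6 k6 a3 d1 d2
  have D := mid_of P v3 v4 v5 k4 j5 k5 a4 e1 e2
  have A' := mem_nb A
  have B' := mem_nb B
  have C' := mem_nb C
  have hsub : [s1, s2, s3, s4, s5, s6] ⊆ nb z := by
    intro x hx
    simp only [List.mem_cons, List.not_mem_nil, or_false] at hx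
    rcases hx with rfl | rfl | rfl | rfl | rfl | rfl
    · exact A'.1
    · exact B'.1
    · exact C'.1
    · exact A'.2
    · exact B'.2
    · exact C'.2
  have hlen : [s1, s2, s3, s4, s5, s6].length ≤ (nb z).length :=
    ((List.nodup_cons.1 hn').2.subperm hsub).length_le
  have hz : z = .fr 0 := by
    cases z with
    | fr f =>
      by_cases hf : f = 0
      · rw [hf]
      · simp [nb, hf] at hlen
    | ho τ i j => simp [nb] at hlen
  refine ⟨hz, ?_⟩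
  subst hz
  have hs4 : s4 = .fr 4 := by
    rcases D with ⟨i, j, h1, _⟩ | ⟨τ, i, j, _, h1, _⟩ | ⟨h1, _⟩ | ⟨h1, _⟩
    · rw [h1] at A'; simp [nb] at A'
    · rw [h1] at A'; simp [nb] at A'
    · exact absurd h1.symm n4
    · exact h1
  subst hs4
  rcases A with ⟨i, j, h1, _⟩ | ⟨τ, i, j, _, h1, _⟩ | ⟨_, h⟩ | ⟨h1, _⟩
  · exact absurd h1 (by simp)
  · exact absurd h1 (by simp)
  · rcases h with ⟨h1, h2⟩ | ⟨h1, h2⟩ | ⟨h1, h2⟩ | ⟨h1, h2⟩ | ⟨h1, h2⟩ | ⟨h1, h2⟩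
    · exact h1
    all_goals (exfalso; simp at h2)
  · exact absurd h1 (by simp)

end Pool.Agent.W2helper57.AV
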