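import Pool.Agent.W2helper57.AV.Defs

set_option autoImplicit false

/-!
# Obstacles given by properties of orientation functions
-/

namespace Pool.Agent.W2helper57.AV

/-- orientation function of a tuple of points -/
noncomputable def ori {m : ℕ} (t : Fin m → ℝ × ℝ) : Fin m → Fin m → Fin m → SignType :=
  fun a b c => orient (t a) (t b) (t c)

/-- some tuple of distinct points with the given orientation function, if there is one -/
noncomputable def rep {m : ℕ} (χ : Fin m → Fin m → Fin m → SignType)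
    (h : ∃ t : Fin m → ℝ × ℝ, Function.Injective t ∧ ori t = χ) : Fin m → ℝ × ℝ := h.choose

theorem rep_inj {m : ℕ} (χ : Fin m → Fin m → Fin m → SignType)
    (h : ∃ t : Fin m → ℝ × ℝ, Function.Injective t ∧ ori t = χ) :
    Function.Injective (rep χ h) := h.choose_spec.1

theorem rep_ori {m : ℕ} (χ : Fin m → Fin m → Fin m → SignType)
    (h : ∃ t : Fin m → ℝ × ℝ, Function.Injective t ∧ ori t = χ) :
    ori (rep χ h) = χ := h.choose_spec.2

/-- one configuration for each orientation function with the property `Φ` -/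
theorem exists_obst {m : ℕ} (Φ : (Fin m → Fin m → Fin m → SignType) → Prop) :
    ∃ 𝒞 : Finset (Finset (ℝ × ℝ)), ∀ S : Finset (ℝ × ℝ), AvoidsAll 𝒞 S ↔
      ∀ t : Fin m → ℝ × ℝ, Function.Injective t → (∀ i, t i ∈ S) → ¬ Φ (ori t) := by
  classical
  let R : (Fin m → Fin m → Fin m → SignType) → Prop := fun χ =>
    ∃ t : Fin m → ℝ × ℝ, Function.Injective t ∧ ori t = χ
  refine ⟨(Finset.univ.filter fun χ => R χ ∧ Φ χ).image
    (fun χ => if h : R χ then Finset.univ.image (rep χ h) else ∅), fun S => ?_⟩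
  constructor
  · intro hA t ht htS hΦ
    have hR : R (ori t) := ⟨t, ht, rfl⟩
    refine hA (Finset.univ.image (rep _ hR)) ?_ ?_
    · rw [Finset.mem_image]
      exact ⟨ori t, by simp [hR, hΦ], by rw [dif_pos hR]⟩
    · have hinj := rep_inj _ hR
      have hex : ∀ a : (Finset.univ.image (rep _ hR) : Finset (ℝ × ℝ)),
          ∃ i, rep _ hR i = a := by
        intro a
        have := a.2
        rw [Finset.mem_image] at this
        obtain ⟨i, _, hi⟩ := this
        exact ⟨i, hi⟩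
      choose g hg using hex
      refine ⟨fun a => ⟨t (g a), htS _⟩, ?_, ?_⟩
      · intro a b hab
        have h1 : t (g a) = t (g b) := congrArg Subtype.val hab
        have h2 := ht h1
        apply Subtype.ext
        rw [← hg a, ← hg b, h2]
      · intro a b c
        have h1 : orient (rep _ hR (g a)) (rep _ hR (g b)) (rep _ hR (g c)) =
            orient (t (g a)) (t (g b)) (t (g c)) :=
          congrFun (congrFun (congrFun (rep_ori _ hR) (g a)) (g b)) (g c)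
        rw [hg, hg, hg] at h1
        exact h1.symm
  · intro h C hC hsub
    rw [Finset.mem_image] at hC
    obtain ⟨χ, hχ, rfl⟩ := hC
    rw [Finset.mem_filter] at hχ
    obtain ⟨-, hR, hΦ⟩ := hχ
    rw [dif_pos hR] at hsub
    obtain ⟨φ, hφ, hor⟩ := hsub
    have hmem : ∀ i, rep χ hR i ∈ (Finset.univ.image (rep χ hR) : Finset (ℝ × ℝ)) :=
      fun i => Finset.mem_image_of_mem _ (Finset.mem_univ i)
    refine h (fun i => φ ⟨rep χ hR i, hmem i⟩) ?_ (fun i => (φ ⟨rep χ hR i, hmem i⟩).2) ?_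
    · intro i j hij
      have h1 := hφ (Subtype.ext hij)
      exact rep_inj χ hR (congrArg Subtype.val h1)
    · have h2 : ori (fun i => (φ ⟨rep χ hR i, hmem i⟩ : ℝ × ℝ)) = χ := by
        funext a b c
        have := hor ⟨rep χ hR a, hmem a⟩ ⟨rep χ hR b, hmem b⟩ ⟨rep χ hR c, hmem c⟩
        unfold ori
        rw [this]
        exact congrFun (congrFun (congrFun (rep_ori χ hR) a) b) c
      rwa [h2]

/-- finite unions of obstacle sets -/
theorem avoidsAll_union (𝒞 𝒟 : Finset (Finset (ℝ × ℝ))) (S : Finset (ℝ × ℝ))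
    [DecidableEq (Finset (ℝ × ℝ))] :
    AvoidsAll (𝒞 ∪ 𝒟) S ↔ AvoidsAll 𝒞 S ∧ AvoidsAll 𝒟 S := by
  unfold AvoidsAll
  constructor
  · intro h
    exact ⟨fun C hC => h C (Finset.mem_union_left _ hC),
      fun C hC => h C (Finset.mem_union_right _ hC)⟩
  · rintro ⟨h1, h2⟩ C hC
    rcases Finset.mem_union.1 hC with h | h
    · exact h1 C h
    · exact h2 C h

section Preds

variable {I : Type} (χ : I → I → I → SignType)

/-- The rigid frame: `z` lies between `s1`, `s4`, between `s2`, `s5` and between `s3`, `s6`, and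
`s4` lies between `s3` and `s5`. -/
def FrameP (z s1 s2 s3 s4 s5 s6 : I) : Prop :=
  (χ s1 z s4 = 0 ∧ χ s2 z s5 = 0 ∧ χ s3 z s6 = 0 ∧ χ s3 s4 s5 = 0) ∧
  (χ s2 s1 z = χ s2 z s4 ∧ χ s2 s1 z ≠ 0) ∧
  (χ s1 s2 z = χ s1 z s5 ∧ χ s1 s2 z ≠ 0) ∧
  (χ s1 s3 z = χ s1 z s6 ∧ χ s1 s3 z ≠ 0) ∧
  (χ z s3 s4 = χ z s4 s5 ∧ χ z s3 s4 ≠ 0)

/-- `a`, `p`, `r` are collinear, `a` is below and `p`, `r` are above the line through `z` and `s1`,
and `p` lies between `a` and `r` -/
def HostP (z s1 a p r : I) : Prop :=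
  χ a p r = 0 ∧ χ z s1 a = 1 ∧ χ z s1 p = -1 ∧ χ z s1 r = -1 ∧ χ z a p = χ z p r ∧ χ z a p ≠ 0

/-- second kind of obstacle: three collinear points above the line through `z` and `s1`, on a line
which separates `z` and `s1` -/
def TripP (z s1 p1 p2 p3 : I) : Prop :=
  χ p1 p2 p3 = 0 ∧ χ z s1 p1 = -1 ∧ χ z s1 p2 = -1 ∧ χ z s1 p3 = -1 ∧
    χ p1 p2 z = - χ p1 p2 s1 ∧ χ p1 p2 z ≠ 0

end Preds

/-- four collinear points -/
def Φ1 (χ : Fin 4 → Fin 4 → Fin 4 → SignType) : Prop := ∀ a b c, χ a b c = 0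

/-- indices: `s5 s4 s3 z s6 s2 p1 p2 p3 s1` -/
def Φ2 (χ : Fin 10 → Fin 10 → Fin 10 → SignType) : Prop :=
  FrameP χ 3 9 5 2 1 0 4 ∧ TripP χ 3 9 6 7 8

/-- indices: `s5 s4 s3 z s6 s2 a p r a' p' r' a'' p'' r'' s1` -/
def Φ3 (χ : Fin 16 → Fin 16 → Fin 16 → SignType) : Prop :=
  FrameP χ 3 15 5 2 1 0 4 ∧ HostP χ 3 15 6 7 8 ∧ HostP χ 3 15 9 10 11 ∧
    HostP χ 3 15 12 13 14 ∧ χ 6 9 12 = 0 ∧ χ 7 10 13 ≠ 0

open Classical in
/-- there is a finite set of obstacles described by the three properties -/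
theorem exists_obstacles : ∃ 𝒞 : Finset (Finset (ℝ × ℝ)), ∀ S : Finset (ℝ × ℝ),
    AvoidsAll 𝒞 S ↔
      (∀ t : Fin 4 → ℝ × ℝ, Function.Injective t → (∀ i, t i ∈ S) → ¬ Φ1 (ori t)) ∧
      (∀ t : Fin 10 → ℝ × ℝ, Function.Injective t → (∀ i, t i ∈ S) → ¬ Φ2 (ori t)) ∧
      (∀ t : Fin 16 → ℝ × ℝ, Function.Injective t → (∀ i, t i ∈ S) → ¬ Φ3 (ori t)) := by
  obtain ⟨C1, h1⟩ := exists_obst Φ1
  obtain ⟨C2, h2⟩ := exists_obst Φ2
  obtain ⟨C3, h3⟩ := exists_obst Φ3
  exact ⟨C1 ∪ (C2 ∪ C3), fun S => by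
    rw [avoidsAll_union, avoidsAll_union, h1, h2, h3]⟩

end Pool.Agent.W2helper57.AV
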