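import Pool.Agent.W2helper57.AV.Compl2

set_option autoImplicit false

/-!
# The configuration of a graph, and soundness of the reduction
-/

namespace Pool.Agent.W2helper57.AV

/-- base -/
def WW (k : ℕ) : ℤ := 2 ^ (k + 7)
/-- exponent of the height of the frame -/
def EE (n k : ℕ) : ℕ := 1 + 2 * k + k * n
def exA (i : ℕ) : ℕ := 1 + i
def exV (n k i u : ℕ) : ℕ := 1 + k + i * n + u
def exB (n k i : ℕ) : ℕ := 1 + k + k * n + i

/-- abscissa of the line of a pair -/
def xh (i j : ℕ) : ℤ := 2 ^ i + 2 ^ j + 1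
def ya (k i j : ℕ) : ℤ := WW k ^ exA i + WW k ^ exA j
def yv (n k i j u v : ℕ) : ℤ :=
  WW k ^ exV n k i u + WW k ^ exV n k j v + 2 * WW k ^ (EE n k + 1)
def yb (n k i j : ℕ) : ℤ :=
  WW k ^ exB n k i + WW k ^ exB n k j + 4 * WW k ^ (EE n k + 1)
/-- height of the frame -/
def TT (n k : ℕ) : ℤ := WW k ^ EE n k
/-- frame points -/
def frp (n k : ℕ) (f : Fin 7) : ℤ × ℤ := (fx k f, TT n k + fd f)

/-- the choices on the line of the pair `(i, j)` -/
def allowed (ed : ℕ → ℕ → Bool) (i j u v : ℕ) : Prop := if i = j then u = v else ed u v = true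

/-- membership in the configuration -/
def InS (n k : ℕ) (ed : ℕ → ℕ → Bool) (p : ℤ × ℤ) : Prop :=
  (∃ f, p = frp n k f) ∨ (∃ i j, i ≤ j ∧ j < k ∧ p.1 = xh i j ∧ (p.2 = ya k i j ∨ p.2 = yb n k i j ∨
    ∃ u v, u < n ∧ v < n ∧ allowed ed i j u v ∧ p.2 = yv n k i j u v))

section

variable {n k : ℕ} {ed : ℕ → ℕ → Bool}

theorem K1 : (1:ℤ) ≤ 2 ^ k := one_le_pow₀ (by norm_num)
theorem WW_eq : WW k = 128 * 2 ^ k := by unfold WW; rw [pow_add]; ring
theorem WW_ge : 128 ≤ WW k := by rw [WW_eq]; linarith [K1 (k := k)]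

theorem xh_bd {i j : ℕ} (h1 : i ≤ j) (h2 : j < k) : 3 ≤ xh i j ∧ xh i j ≤ 2 ^ k + 1 := by
  have h3 := pow_bound h1 h2
  have h4 : (1:ℤ) ≤ 2 ^ i := one_le_pow₀ (by norm_num)
  have h5 : (1:ℤ) ≤ 2 ^ j := one_le_pow₀ (by norm_num)
  unfold xh
  constructor <;> linarith

theorem xh_inj {i j i' j' : ℕ} (h : i ≤ j) (h' : i' ≤ j') (he : xh i j = xh i' j') :
    i = i' ∧ j = j' := by
  unfold xh at he
  exact two_pow_pair h h' (by linarith)

theorem frp_ne {i j : ℕ} (h1 : i ≤ j) (h2 : j < k) (f : Fin 7) : (frp n k f).1 ≠ xh i j := by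
  have h3 := xh_bd h1 h2
  intro he
  rw [← he] at h3
  fin_cases f <;> simp [frp, fx] at h3

/-- the heights on a line -/
theorem col {i j : ℕ} (h1 : i ≤ j) (h2 : j < k) {y : ℤ} (h : InS n k ed (xh i j, y)) :
    y = ya k i j ∨ y = yb n k i j ∨ ∃ u v, u < n ∧ v < n ∧ allowed ed i j u v ∧
      y = yv n k i j u v := by
  rcases h with ⟨f, hf⟩ | ⟨i', j', h3, h4, h5, h6⟩
  · exact absurd (congrArg Prod.fst hf).symm (frp_ne h1 h2 f)
  · obtain ⟨rfl, rfl⟩ := xh_inj h1 h3 h5
    exact h6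

theorem pw {e : ℕ} (he : e < EE n k) :
    0 < WW k ^ e ∧ WW k * WW k ^ e ≤ TT n k := by
  have hW := WW_ge (k := k)
  refine ⟨by positivity, ?_⟩
  unfold TT
  rw [← pow_succ']
  exact pow_le_pow_right₀ (by linarith) he

theorem exA_lt {i : ℕ} (h : i < k) : exA i < EE n k := by unfold exA EE; omega
theorem exV_lt {i u : ℕ} (h : i < k) (hu : u < n) : exV n k i u < EE n k := by
  unfold exV EE
  have : (i + 1) * n ≤ k * n := Nat.mul_le_mul_right _ h
  rw [add_mul, one_mul] at this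
  omega
theorem exB_lt {i : ℕ} (h : i < k) : exB n k i < EE n k := by unfold exB EE; omega

theorem ya_lt {i j : ℕ} (h1 : i ≤ j) (h2 : j < k) : ya k i j < TT n k := by
  have a1 := pw (n := n) (exA_lt (n := n) (show i < k by omega))
  have a2 := pw (n := n) (exA_lt (n := n) h2)
  have hW := WW_ge (k := k)
  unfold ya
  nlinarith

theorem T1 : WW k ^ (EE n k + 1) = WW k * TT n k := pow_succ' _ _

theorem TT_pos : 0 < TT n k := by
  have hW := WW_ge (k := k)
  unfold TT; positivity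

theorem lt_yv {i j u v : ℕ} : TT n k < yv n k i j u v := by
  have hW := WW_ge (k := k)
  have hT := TT_pos (n := n) (k := k)
  unfold yv
  rw [T1]
  have h1 : 0 < WW k ^ exV n k i u := by positivity
  have h2 : 0 < WW k ^ exV n k j v := by positivity
  nlinarith

theorem yv_lt {i j u v : ℕ} (h1 : i ≤ j) (h2 : j < k) (hu : u < n) (hv : v < n) :
    yv n k i j u v < yb n k i j := by
  have hW := WW_ge (k := k)
  have hT := TT_pos (n := n) (k := k)
  have a1 := pw (exV_lt (show i < k by omega) hu)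
  have a2 := pw (exV_lt h2 hv)
  have h3 : 0 < WW k ^ exB n k i := by positivity
  have h4 : 0 < WW k ^ exB n k j := by positivity
  unfold yv yb
  rw [T1]
  have e1 : WW k ^ exV n k i u ≤ TT n k := by nlinarith
  have e2 : WW k ^ exV n k j v ≤ TT n k := by nlinarith
  nlinarith

/-! ### The frame -/

theorem frame_ok : FrameP orient (up (frp n k 0)) (up (frp n k 1)) (up (frp n k 2))
    (up (frp n k 3)) (up (frp n k 4)) (up (frp n k 5)) (up (frp n k 6)) := by
  have hK := K1 (k := k)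
  have n1 : ∀ {a b c d e f : ℤ × ℤ}, 0 < dt a b c → 0 < dt d e f →
      orient (up a) (up b) (up c) = orient (up d) (up e) (up f) ∧
        orient (up a) (up b) (up c) ≠ 0 := by
    intro a b c d e f h1 h2
    rw [orient_up_neg.2 h1, orient_up_neg.2 h2]
    simp
  have n2 : ∀ {a b c d e f : ℤ × ℤ}, dt a b c < 0 → dt d e f < 0 →
      orient (up a) (up b) (up c) = orient (up d) (up e) (up f) ∧
        orient (up a) (up b) (up c) ≠ 0 := by
    intro a b c d e f h1 h2
    rw [orient_up_one.2 h1, orient_up_one.2 h2]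
    simp
  refine ⟨⟨orient_up_zero.2 ?_, orient_up_zero.2 ?_, orient_up_zero.2 ?_, orient_up_zero.2 ?_⟩,
    n2 ?_ ?_, n1 ?_ ?_, n1 ?_ ?_, n1 ?_ ?_⟩
  · simp [dt, frp, fx, fd]
  · simp [dt, frp, fx, fd]; ring
  · simp [dt, frp, fx, fd]; ring
  · simp [dt, frp, fx, fd]
  · simp [dt, frp, fx, fd]; nlinarith
  · simp [dt, frp, fx, fd]
  · simp [dt, frp, fx, fd]; nlinarith
  · simp [dt, frp, fx, fd]; nlinarith
  · simp [dt, frp, fx, fd]; nlinarith
  · simp [dt, frp, fx, fd]; nlinarith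
  · simp [dt, frp, fx, fd]
  · simp [dt, frp, fx, fd]

theorem above_ok {x y : ℤ} (h : TT n k < y) :
    orient (up (frp n k 0)) (up (frp n k 1)) (up (x, y)) = -1 := by
  rw [orient_up_neg]
  have hK := K1 (k := k)
  have : dt (frp n k 0) (frp n k 1) (x, y) = (2 ^ k + 4) * (y - TT n k) := by
    simp [dt, frp, fx, fd]; ring
  rw [this]
  exact mul_pos (by linarith) (by linarith)

theorem below_ok {x y : ℤ} (h : y < TT n k) :
    orient (up (frp n k 0)) (up (frp n k 1)) (up (x, y)) = 1 := by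
  rw [orient_up_one]
  have hK := K1 (k := k)
  have : dt (frp n k 0) (frp n k 1) (x, y) = (2 ^ k + 4) * (y - TT n k) := by
    simp [dt, frp, fx, fd]; ring
  rw [this]
  exact mul_neg_of_pos_of_neg (by linarith) (by linarith)

theorem col_ok {x y1 y2 y3 : ℤ} : orient (up (x, y1)) (up (x, y2)) (up (x, y3)) = 0 := by
  rw [orient_up_zero]
  simp only [dt]; ring

theorem trip_ok {x y1 y2 y3 : ℤ} (hx : 3 ≤ x) (hx' : x ≤ 2 ^ k + 1) (h0 : TT n k < y1)
    (h1 : y1 < y2) (h2 : y2 < y3) :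
    TripP orient (up (frp n k 0)) (up (frp n k 1)) (up (x, y1)) (up (x, y2)) (up (x, y3)) := by
  have e1 : orient (up (x, y1)) (up (x, y2)) (up (frp n k 0)) = -1 := by
    rw [orient_up_neg]
    have : dt (x, y1) (x, y2) (frp n k 0) = (y2 - y1) * (x - 1) := by
      simp [dt, frp, fx, fd]; ring
    rw [this]
    exact mul_pos (by linarith) (by linarith)
  have e2 : orient (up (x, y1)) (up (x, y2)) (up (frp n k 1)) = 1 := by
    rw [orient_up_one]
    have : dt (x, y1) (x, y2) (frp n k 1) = (y2 - y1) * (x - (2 ^ k + 5)) := by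
      simp [dt, frp, fx, fd]; ring
    rw [this]
    exact mul_neg_of_pos_of_neg (by linarith) (by linarith)
  refine ⟨col_ok, above_ok h0, above_ok (by linarith), above_ok (by linarith), ?_, ?_⟩
  · rw [e1, e2]
  · rw [e1]; decide

theorem host_ok {x y1 y2 y3 : ℤ} (hx : 3 ≤ x) (h0 : y1 < TT n k) (h1 : TT n k < y2)
    (h2 : y2 < y3) :
    HostP orient (up (frp n k 0)) (up (frp n k 1)) (up (x, y1)) (up (x, y2)) (up (x, y3)) := by
  have e : ∀ {a b : ℤ}, a < b → orient (up (frp n k 0)) (up (x, a)) (up (x, b)) = -1 := by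
    intro a b hab
    rw [orient_up_neg]
    have : dt (frp n k 0) (x, a) (x, b) = (b - a) * (x - 1) := by
      simp [dt, frp, fx, fd]; ring
    rw [this]
    exact mul_pos (by linarith) (by linarith)
  refine ⟨col_ok, below_ok h0, above_ok h1, above_ok (by linarith), ?_, ?_⟩
  · rw [e (by linarith), e h2]
  · rw [e (by linarith)]; decide

/-! ### Injective tuples -/

theorem inj_of_lex {m : ℕ} {t : Fin (m + 1) → ℤ × ℤ}
    (h : ∀ i : Fin m, (t i.castSucc).1 < (t i.succ).1 ∨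
      ((t i.castSucc).1 = (t i.succ).1 ∧ (t i.castSucc).2 < (t i.succ).2)) :
    Function.Injective (fun i => up (t i)) := by
  have h1 : StrictMono (fun i => toLex (t i)) := by
    rw [Fin.strictMono_iff_lt_succ]
    intro i
    rw [Prod.Lex.lt_iff]
    exact h i
  intro i j hij
  exact h1.injective (congrArg toLex (up_inj hij))

end

end Pool.Agent.W2helper57.AV
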