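import Pool.Agent.W2helper57.AV.Sound

set_option autoImplicit false

/-!
# Soundness of the reduction
-/

namespace Pool.Agent.W2helper57.AV

variable {n k : ℕ} {ed : ℕ → ℕ → Bool}

/-- the three conditions on a configuration -/
def Good (S : Finset (ℝ × ℝ)) : Prop :=
  (∀ t : Fin 4 → ℝ × ℝ, Function.Injective t → (∀ i, t i ∈ S) → ¬ Φ1 (ori t)) ∧
      (∀ t : Fin 10 → ℝ × ℝ, Function.Injective t → (∀ i, t i ∈ S) → ¬ Φ2 (ori t)) ∧
      (∀ t : Fin 16 → ℝ × ℝ, Function.Injective t → (∀ i, t i ∈ S) → ¬ Φ3 (ori t))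

open Classical in
/-- a configuration with integer coordinates -/
noncomputable def img (A : Finset (ℤ × ℤ)) : Finset (ℝ × ℝ) := A.image up

theorem mem_img {A : Finset (ℤ × ℤ)} {p : ℤ × ℤ} : up p ∈ img A ↔ p ∈ A := by
  unfold img
  rw [Finset.mem_image]
  constructor
  · rintro ⟨q, hq, h⟩
    rwa [← up_inj h]
  · intro h; exact ⟨p, h, rfl⟩

theorem card_img (A : Finset (ℤ × ℤ)) : (img A).card = A.card :=
  Finset.card_image_of_injective _ up_inj

/-- points on a vertical line -/
def colF (A : Finset (ℤ × ℤ)) (x : ℤ) : Finset (ℤ × ℤ) := A.filter (fun p => p.1 = x)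

theorem card_col {A : Finset (ℤ × ℤ)} (h : Good (img A)) (x : ℤ) : (colF A x).card ≤ 3 := by
  by_contra hc
  push Not at hc
  have h1 : Fintype.card (Fin 4) ≤ Fintype.card (colF A x) := by
    rw [Fintype.card_fin, Fintype.card_coe]; exact hc
  obtain ⟨f⟩ := Function.Embedding.nonempty_of_card_le h1
  refine h.1 (fun i => up (f i)) ?_ ?_ ?_
  · intro i j hij
    exact f.injective (Subtype.ext (up_inj hij))
  · intro i
    rw [mem_img]
    exact (Finset.mem_filter.1 (f i).2).1
  · intro a b c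
    have e : ∀ i, (f i : ℤ × ℤ) = (x, (f i : ℤ × ℤ).2) := fun i =>
      Prod.ext (Finset.mem_filter.1 (f i).2).2 rfl
    change orient (up (f a)) (up (f b)) (up (f c)) = 0
    rw [e a, e b, e c]
    exact col_ok

/-- frame points -/
def frF (n k : ℕ) : Finset (ℤ × ℤ) := Finset.univ.image (frp n k)

theorem card_frF : (frF n k).card ≤ 7 := by
  unfold frF
  exact Finset.card_image_le.trans (by simp)

theorem sub_union {A : Finset (ℤ × ℤ)} (hA : ∀ p ∈ A, InS n k ed p) :
    A ⊆ (A ∩ frF n k) ∪ (pairsF k).biUnion (fun x => colF A (xh x.1 x.2)) := by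
  intro p hp
  rw [Finset.mem_union]
  rcases hA p hp with ⟨f, hf⟩ | ⟨i, j, h3, h4, h5, _⟩
  · left
    rw [Finset.mem_inter]
    exact ⟨hp, Finset.mem_image.2 ⟨f, Finset.mem_univ _, hf.symm⟩⟩
  · right
    rw [Finset.mem_biUnion]
    exact ⟨(i, j), mem_pairsF.2 ⟨h3, h4⟩, Finset.mem_filter.2 ⟨hp, h5⟩⟩

theorem card_le {A : Finset (ℤ × ℤ)} (hA : ∀ p ∈ A, InS n k ed p) (h : Good (img A)) :
    A.card ≤ 7 + 3 * (pairsF k).card := by
  refine (Finset.card_le_card (sub_union hA)).trans ((Finset.card_union_le _ _).trans ?_)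
  refine add_le_add ((Finset.card_le_card Finset.inter_subset_right).trans card_frF) ?_
  refine Finset.card_biUnion_le.trans ?_
  rw [mul_comm]
  exact Finset.sum_le_card_nsmul _ _ 3 (fun x _ => card_col h _)

theorem full {A : Finset (ℤ × ℤ)} (hA : ∀ p ∈ A, InS n k ed p) (h : Good (img A))
    (hc : 7 + 3 * (pairsF k).card ≤ A.card) :
    (∀ f, frp n k f ∈ A) ∧ ∀ i j, i ≤ j → j < k → (colF A (xh i j)).card = 3 := by
  have h1 := (Finset.card_le_card (sub_union hA)).trans (Finset.card_union_le _ _)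
  have h2 : ((pairsF k).biUnion (fun x => colF A (xh x.1 x.2))).card ≤ 3 * (pairsF k).card := by
    refine Finset.card_biUnion_le.trans ?_
    rw [mul_comm]
    exact Finset.sum_le_card_nsmul _ _ 3 (fun x _ => card_col h _)
  constructor
  · intro f
    by_contra hf
    have h3 : (A ∩ frF n k) ⊆ (Finset.univ.erase f).image (frp n k) := by
      intro p hp
      rw [Finset.mem_inter] at hp
      obtain ⟨g, _, rfl⟩ := Finset.mem_image.1 hp.2
      refine Finset.mem_image.2 ⟨g, Finset.mem_erase.2 ⟨?_, Finset.mem_univ _⟩, rfl⟩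
      rintro rfl
      exact hf hp.1
    have h4 := (Finset.card_le_card h3).trans Finset.card_image_le
    rw [Finset.card_erase_of_mem (Finset.mem_univ _), Finset.card_univ, Fintype.card_fin] at h4
    omega
  · intro i j hij hj
    by_contra hne
    have h3 := card_col h (xh i j)
    have h4 : (colF A (xh i j)).card < 3 := lt_of_le_of_ne h3 hne
    have h5 : ((pairsF k).biUnion (fun x => colF A (xh x.1 x.2))).card <
        ∑ x ∈ pairsF k, 3 := by
      refine Finset.card_biUnion_le.trans_lt ?_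
      exact Finset.sum_lt_sum (fun x _ => card_col h _) ⟨(i, j), mem_pairsF.2 ⟨hij, hj⟩, h4⟩
    rw [Finset.sum_const, smul_eq_mul] at h5
    have h6 := (Finset.card_le_card (Finset.inter_subset_right (s₁ := A) (s₂ := frF n k))).trans
      card_frF
    omega

/-- the sorted heights on a line -/
theorem heights {A : Finset (ℤ × ℤ)} {x : ℤ} (h : (colF A x).card = 3) :
    ∃ y1 y2 y3, y1 < y2 ∧ y2 < y3 ∧ (x, y1) ∈ A ∧ (x, y2) ∈ A ∧ (x, y3) ∈ A := by
  have h1 : ((colF A x).image Prod.snd).card = 3 := by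
    rw [Finset.card_image_of_injOn, h]
    intro p hp q hq hpq
    have e1 := (Finset.mem_filter.1 hp).2
    have e2 := (Finset.mem_filter.1 hq).2
    exact Prod.ext (e1.trans e2.symm) hpq
  have key : ∀ i, (x, ((colF A x).image Prod.snd).orderEmbOfFin h1 i) ∈ A := by
    intro i
    have := Finset.orderEmbOfFin_mem ((colF A x).image Prod.snd) h1 i
    rw [Finset.mem_image] at this
    obtain ⟨p, hp, hp'⟩ := this
    have e := Finset.mem_filter.1 hp
    rw [← hp', ← e.2]
    exact e.1
  exact ⟨_, _, _, (((colF A x).image Prod.snd).orderEmbOfFin h1).strictMono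
      (show (0 : Fin 3) < 1 by decide),
    (((colF A x).image Prod.snd).orderEmbOfFin h1).strictMono (show (1 : Fin 3) < 2 by decide),
    key 0, key 1, key 2⟩

/-- the bottom point, the value and the third point of each line -/
theorem values {A : Finset (ℤ × ℤ)} (hA : ∀ p ∈ A, InS n k ed p) (h : Good (img A))
    (hc : 7 + 3 * (pairsF k).card ≤ A.card) {i j : ℕ} (hij : i ≤ j) (hj : j < k) :
    ∃ u v y, u < n ∧ v < n ∧ allowed ed i j u v ∧ yv n k i j u v < y ∧ (xh i j, ya k i j) ∈ A ∧
      (xh i j, yv n k i j u v) ∈ A ∧ (xh i j, y) ∈ A := by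
  obtain ⟨hfr, hcol⟩ := full hA h hc
  obtain ⟨y1, y2, y3, h12, h23, m1, m2, m3⟩ := heights (hcol i j hij hj)
  have b := xh_bd hij hj
  have hK := K1 (k := k)
  have c1 := col hij hj (hA _ m1)
  have c2 := col hij hj (hA _ m2)
  have c3 := col hij hj (hA _ m3)
  have hya := ya_lt (n := n) hij hj
  have hyb : TT n k < yb n k i j := by
    have hT := TT_pos (n := n) (k := k)
    have hW := WW_ge (k := k)
    unfold yb
    rw [T1]
    have h3 : 0 < WW k ^ exB n k i := by positivity
    have h4 : 0 < WW k ^ exB n k j := by positivity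
    nlinarith
  have hlow : y1 = ya k i j := by
    rcases c1 with h1 | h1
    · exact h1
    · exfalso
      have hT : TT n k < y1 := by
        rcases h1 with h1 | ⟨u, v, _, _, _, h1⟩
        · rw [h1]; exact hyb
        · rw [h1]; exact lt_yv
      refine h.2.1 (fun a => up ((![frp n k 5, frp n k 4, frp n k 3, frp n k 0, frp n k 6,
        frp n k 2, (xh i j, y1), (xh i j, y2), (xh i j, y3), frp n k 1] : Fin 10 → ℤ × ℤ) a))
        ?_ ?_ ?_
      · apply inj_of_lex
        intro a
        fin_cases a <;> simp [frp, fx, fd] <;> omega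
      · intro a
        rw [mem_img]
        fin_cases a
        · exact hfr 5
        · exact hfr 4
        · exact hfr 3
        · exact hfr 0
        · exact hfr 6
        · exact hfr 2
        · exact m1
        · exact m2
        · exact m3
        · exact hfr 1
      · exact ⟨frame_ok, trip_ok b.1 b.2 hT h12 h23⟩
  have hv2 : ∃ u v, u < n ∧ v < n ∧ allowed ed i j u v ∧ y2 = yv n k i j u v := by
    rcases c2 with h1 | h1 | h1
    · exfalso; rw [hlow, h1] at h12; exact lt_irrefl _ h12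
    · exfalso
      rcases c3 with h2 | h2 | ⟨u, v, hu, hv, _, h2⟩
      · linarith
      · linarith
      · have := yv_lt hij hj hu hv; linarith
    · exact h1
  obtain ⟨u, v, hu, hv, ha, rfl⟩ := hv2
  subst hlow
  exact ⟨u, v, y3, hu, hv, ha, h23, m1, m2, m3⟩

theorem exV_inj {i j u v u' v' : ℕ} (hij : i < j) (hu : u < n) (hu' : u' < n)
    (h : WW k ^ exV n k i u + WW k ^ exV n k j v =
      WW k ^ exV n k i u' + WW k ^ exV n k j v') : u = u' ∧ v = v' := by
  have h1 : (i + 1) * n ≤ j * n := Nat.mul_le_mul_right _ hij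
  rw [add_mul, one_mul] at h1
  unfold WW at h
  rw [← pow_mul, ← pow_mul, ← pow_mul, ← pow_mul] at h
  have a1 : exV n k i u ≤ exV n k j v := by unfold exV; omega
  have a2 : exV n k i u' ≤ exV n k j v' := by unfold exV; omega
  obtain ⟨h2, h3⟩ := two_pow_pair (Nat.mul_le_mul_left (k + 7) a1) (Nat.mul_le_mul_left (k + 7) a2) h
  have h4 := Nat.eq_of_mul_eq_mul_left (by omega) h2
  have h5 := Nat.eq_of_mul_eq_mul_left (by omega) h3
  unfold exV at h4 h5
  omega

theorem allowed_self {i u v : ℕ} (h : allowed ed i i u v) : u = v := by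
  unfold allowed at h
  simpa using h

theorem allowed_lt {i j u v : ℕ} (hij : i < j) (h : allowed ed i j u v) : ed u v = true := by
  unfold allowed at h
  rwa [if_neg (by omega)] at h

/-- **Soundness.** -/
theorem sound {A : Finset (ℤ × ℤ)} (hA : ∀ p ∈ A, InS n k ed p) (h : Good (img A))
    (hc : 7 + 3 * (pairsF k).card ≤ A.card) :
    ∃ x : ℕ → ℕ, (∀ i < k, x i < n) ∧ ∀ i j, i < j → j < k → ed (x i) (x j) = true := by
  have hval : ∀ p : ℕ × ℕ, ∃ q : ℕ × ℕ × ℤ, p.1 ≤ p.2 → p.2 < k → q.1 < n ∧ q.2.1 < n ∧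
      allowed ed p.1 p.2 q.1 q.2.1 ∧ yv n k p.1 p.2 q.1 q.2.1 < q.2.2 ∧
      (xh p.1 p.2, ya k p.1 p.2) ∈ A ∧ (xh p.1 p.2, yv n k p.1 p.2 q.1 q.2.1) ∈ A ∧
      (xh p.1 p.2, q.2.2) ∈ A := by
    intro p
    by_cases h1 : p.1 ≤ p.2
    · by_cases h2 : p.2 < k
      · obtain ⟨u, v, y, h3⟩ := values hA h hc h1 h2
        exact ⟨(u, v, y), fun _ _ => h3⟩
      · exact ⟨(0, 0, 0), fun _ h => absurd h h2⟩
    · exact ⟨(0, 0, 0), fun h => absurd h h1⟩
  choose q hq using hval
  obtain ⟨hfr, -⟩ := full hA h hc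
  refine ⟨fun i => (q (i, i)).1, fun i hi => (hq (i, i) le_rfl hi).1, fun i j hij hj => ?_⟩
  have hi : i < k := by omega
  obtain ⟨b1, b2, b3, b4, b5, b6, b7⟩ := hq (i, i) le_rfl hi
  obtain ⟨c1, c2, c3, c4, c5, c6, c7⟩ := hq (i, j) hij.le hj
  obtain ⟨d1, d2, d3, d4, d5, d6, d7⟩ := hq (j, j) le_rfl hj
  dsimp only at *
  have e1 := xh_bd (show i ≤ i from le_rfl) hi
  have e2 := xh_bd hij.le hj
  have e3 := xh_bd (show j ≤ j from le_rfl) hj
  have p1 : (2:ℤ) ^ i < 2 ^ j := by
    exact_mod_cast Nat.pow_lt_pow_right (by norm_num) hij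
  have f1 : xh i i < xh i j := by unfold xh; linarith
  have f2 : xh i j < xh j j := by unfold xh; linarith
  have g1 := ya_lt (n := n) (show i ≤ i from le_rfl) hi
  have g2 := ya_lt (n := n) hij.le hj
  have g3 := ya_lt (n := n) (show j ≤ j from le_rfl) hj
  have hK := K1 (k := k)
  have h1 := lt_yv (n := n) (k := k) (i := i) (j := i) (u := (q (i, i)).1) (v := (q (i, i)).2.1)
  have h2 := lt_yv (n := n) (k := k) (i := i) (j := j) (u := (q (i, j)).1) (v := (q (i, j)).2.1)
  have h3 := lt_yv (n := n) (k := k) (i := j) (j := j) (u := (q (j, j)).1) (v := (q (j, j)).2.1)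
  have key : orient (up (xh i i, yv n k i i (q (i, i)).1 (q (i, i)).2.1))
      (up (xh i j, yv n k i j (q (i, j)).1 (q (i, j)).2.1))
      (up (xh j j, yv n k j j (q (j, j)).1 (q (j, j)).2.1)) = 0 := by
    by_contra hne
    refine h.2.2 (fun a => up ((![frp n k 5, frp n k 4, frp n k 3, frp n k 0, frp n k 6,
        frp n k 2, (xh i i, ya k i i), (xh i i, yv n k i i (q (i, i)).1 (q (i, i)).2.1),
        (xh i i, (q (i, i)).2.2), (xh i j, ya k i j),
        (xh i j, yv n k i j (q (i, j)).1 (q (i, j)).2.1), (xh i j, (q (i, j)).2.2),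
        (xh j j, ya k j j), (xh j j, yv n k j j (q (j, j)).1 (q (j, j)).2.1),
        (xh j j, (q (j, j)).2.2), frp n k 1] : Fin 16 → ℤ × ℤ) a)) ?_ ?_ ?_
    · apply inj_of_lex
      intro a
      fin_cases a <;> simp [frp, fx, fd] <;> omega
    · intro a
      rw [mem_img]
      fin_cases a
      · exact hfr 5
      · exact hfr 4
      · exact hfr 3
      · exact hfr 0
      · exact hfr 6
      · exact hfr 2
      · exact b5
      · exact b6
      · exact b7
      · exact c5
      · exact c6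
      · exact c7
      · exact d5
      · exact d6
      · exact d7
      · exact hfr 1
    · refine ⟨frame_ok, host_ok e1.1 g1 h1 b4, host_ok e2.1 g2 h2 c4, host_ok e3.1 g3 h3 d4, ?_,
        hne⟩
      exact orient_up_zero.2 (by simp only [dt, xh, ya, Matrix.cons_val]; ring)
  have hd := orient_up_zero.1 key
  have hii := allowed_self b3
  have hjj := allowed_self d3
  rw [← hii, ← hjj] at hd
  have hsum : WW k ^ exV n k i (q (i, i)).1 + WW k ^ exV n k j (q (j, j)).1 =
      WW k ^ exV n k i (q (i, j)).1 + WW k ^ exV n k j (q (i, j)).2.1 := by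
    have h4 : (2 ^ j - 2 ^ i : ℤ) * (2 * ((WW k ^ exV n k i (q (i, i)).1 +
        WW k ^ exV n k j (q (j, j)).1) -
        (WW k ^ exV n k i (q (i, j)).1 + WW k ^ exV n k j (q (i, j)).2.1))) = 0 := by
      rw [← hd]
      simp only [dt, xh, yv]
      ring
    rcases mul_eq_zero.1 h4 with h5 | h5
    · linarith
    · linarith
  obtain ⟨r1, r2⟩ := exV_inj hij b1 c1 hsum
  rw [r1, r2]
  exact allowed_lt hij c3

end Pool.Agent.W2helper57.AV
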